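import Pool.Agent.Y120.H.Fac
import Pool.Agent.Helper242.RK.Harnack

/-!
# Minimum modulus on small circles
-/

set_option autoImplicit false

namespace Q240.QS

open Complex Filter Topology Metric Set
open scoped Polynomial

theorem mprod_abs (s : Multiset ℝ) (f : ℝ → ℝ) :
    |(s.map f).prod| = (s.map fun a => |f a|).prod := by
  induction s using Multiset.induction_on with
  | empty => simp
  | cons a s ih => simp [abs_mul, ih]

/-- monic real polynomials with real roots are not small on an interval -/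
theorem real_prod (s : Multiset ℝ) (ρ : ℝ) (hρ : 0 < ρ) :
    ∃ r : ℝ, ρ ≤ r ∧ r ≤ 2 * ρ ∧ (ρ / 4) ^ (Multiset.card s) ≤ (s.map fun a => |r - a|).prod := by
  classical
  by_contra hcon
  push Not at hcon
  set n := Multiset.card s with hn
  set Q : ℝ[X] := (s.map fun a => Polynomial.X - Polynomial.C a).prod with hQ
  have hQm : Q.Monic := Polynomial.monic_multiset_prod_of_monic _ _ fun a _ => Polynomial.monic_X_sub_C a
  have hQd : Q.natDegree = n := by
    rw [hQ, Polynomial.natDegree_multiset_prod_X_sub_C_eq_card]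
  have hev : ∀ x : ℝ, |Q.eval x| = (s.map fun a => |x - a|).prod := by
    intro x
    rw [hQ, Polynomial.eval_multiset_prod, Multiset.map_map, mprod_abs]
    simp
  rcases Nat.eq_zero_or_pos n with h0 | hpos
  · have h1 := hcon ρ le_rfl (by linarith)
    have hs : s = 0 := Multiset.card_eq_zero.1 (by rw [← hn]; exact h0)
    rw [h0, hs] at h1
    simp at h1
  · set L : ℝ[X] := Polynomial.C (ρ / 2) * Polynomial.X + Polynomial.C (3 * ρ / 2) with hL
    have hLd : L.natDegree = 1 := Polynomial.natDegree_linear (by positivity)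
    have hLl : L.leadingCoeff = ρ / 2 := Polynomial.leadingCoeff_linear (by positivity)
    set P : ℝ[X] := Q.comp L * Polynomial.C ((4 / ρ) ^ n) with hP
    have hc0 : (4 / ρ) ^ n ≠ 0 := by positivity
    have hcd : (Q.comp L).natDegree = n := by
      rw [Polynomial.natDegree_comp, hLd, hQd, mul_one]
    have hPd : P.natDegree = n := by
      rw [hP, Polynomial.natDegree_mul_C hc0, hcd]
    have hPl : P.leadingCoeff = 2 ^ n := by
      rw [hP, Polynomial.leadingCoeff_mul, Polynomial.leadingCoeff_C,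
        Polynomial.leadingCoeff_comp (by rw [hLd]; norm_num), hQm.leadingCoeff, one_mul, hLl, hQd,
        ← mul_pow]
      congr 1
      field_simp
      norm_num
    have h1 := Polynomial.Chebyshev.leadingCoeff_le_of_forall_abs_le_one (n := n) (P := P)
      (Polynomial.degree_le_of_natDegree_le hPd.le) (by
        intro x hx
        rw [hP, Polynomial.eval_mul, Polynomial.eval_comp, Polynomial.eval_C, abs_mul, hev]
        have e1 : L.eval x = ρ / 2 * x + 3 * ρ / 2 := by simp [hL]
        rw [e1]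
        have h2 := hcon (ρ / 2 * x + 3 * ρ / 2) (by nlinarith [hx.1]) (by nlinarith [hx.2])
        rw [abs_of_pos (by positivity : (0 : ℝ) < (4 / ρ) ^ n)]
        calc _ ≤ (ρ / 4) ^ n * (4 / ρ) ^ n := mul_le_mul_of_nonneg_right h2.le (by positivity)
          _ = 1 := by
            rw [← mul_pow]
            have : ρ / 4 * (4 / ρ) = 1 := by field_simp
            rw [this, one_pow])
    rw [hPl] at h1
    have h2 : (2 : ℝ) ^ (n - 1) < 2 ^ n := pow_lt_pow_right₀ (by norm_num) (by omega)
    linarith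

theorem mprod_norm (s : Multiset ℂ) (f : ℂ → ℂ) :
    ‖(s.map f).prod‖ = (s.map fun a => ‖f a‖).prod := by
  induction s using Multiset.induction_on with
  | empty => simp
  | cons a s ih => simp [ih]

theorem mprod_ge (s : Multiset ℂ) (f : ℂ → ℝ) (c : ℝ) (hc : 0 ≤ c) (h : ∀ a ∈ s, c ≤ f a) :
    c ^ (Multiset.card s) ≤ (s.map f).prod := by
  induction s using Multiset.induction_on with
  | empty => simp
  | cons a s ih =>
    rw [Multiset.card_cons, Multiset.map_cons, Multiset.prod_cons, pow_succ, mul_comm]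
    exact mul_le_mul (h a (Multiset.mem_cons_self a s)) (ih fun b hb => h b (Multiset.mem_cons_of_mem hb))
      (by positivity) (hc.trans (h a (Multiset.mem_cons_self a s)))

theorem mprod_mono (s : Multiset ℂ) (f g : ℂ → ℝ) (h0 : ∀ a ∈ s, 0 ≤ f a) (h : ∀ a ∈ s, f a ≤ g a) :
    (s.map f).prod ≤ (s.map g).prod := by
  induction s using Multiset.induction_on with
  | empty => simp
  | cons a s ih =>
    rw [Multiset.map_cons, Multiset.prod_cons, Multiset.map_cons, Multiset.prod_cons]
    have h1 := h a (Multiset.mem_cons_self a s)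
    have h2 := h0 a (Multiset.mem_cons_self a s)
    refine mul_le_mul h1 (ih (fun b hb => h0 b (Multiset.mem_cons_of_mem hb))
      fun b hb => h b (Multiset.mem_cons_of_mem hb)) ?_ (h2.trans h1)
    exact Multiset.prod_nonneg (by
      intro x hx
      obtain ⟨b, hb, rfl⟩ := Multiset.mem_map.1 hx
      exact h0 b (Multiset.mem_cons_of_mem hb))

theorem mprod_anal (s : Multiset ℂ) (f : ℂ → ℂ → ℂ) (U : Set ℂ)
    (h : ∀ a ∈ s, DifferentiableOn ℂ (f a) U) : DifferentiableOn ℂ (fun z => (s.map fun a => f a z).prod) U := by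
  induction s using Multiset.induction_on with
  | empty => simp
  | cons a s ih =>
    have : (fun z => ((a ::ₘ s).map fun a => f a z).prod) =
        fun z => f a z * (s.map fun a => f a z).prod := by
      funext z; simp
    rw [this]
    exact (h a (Multiset.mem_cons_self a s)).mul (ih fun b hb => h b (Multiset.mem_cons_of_mem hb))

/-- the decomposition `g = ∏ (z - a) * k`, with few zeros, all in the unit disc -/
theorem decomp {g : ℂ → ℂ} {A : ℝ} (hA : 0 < A) (hg : AnalyticOnNhd ℂ g (closedBall 0 2))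
    (hup : ∀ z ∈ closedBall (0 : ℂ) 2, ‖g z‖ ≤ Real.exp A) (h0 : Real.exp (-A) ≤ ‖g 0‖) :
    ∃ (s : Multiset ℂ) (k : ℂ → ℂ), ((Multiset.card s : ℕ) : ℝ) ≤ 3 * A ∧ (∀ a ∈ s, ‖a‖ < 1) ∧
      DifferentiableOn ℂ k (closedBall 0 2) ∧ (∀ z ∈ ball (0 : ℂ) 1, k z ≠ 0) ∧
      (∀ z ∈ closedBall (0 : ℂ) 2, ‖k z‖ ≤ Real.exp A) ∧ Real.exp (-A) ≤ ‖k 0‖ ∧
      (∀ z ∈ closedBall (0 : ℂ) 2, g z = (s.map fun a => z - a).prod * k z) ∧
      (∀ a ∈ s, g a = 0) := by
  classical
  have hg0 : g 0 ≠ 0 := by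
    intro h
    rw [h, norm_zero] at h0
    linarith [Real.exp_pos (-A)]
  obtain ⟨Q, k0, hQ0, hk0, hk0n, hfac⟩ := Pool.Agent.Y120.GH.factor (R := 2) (by norm_num) hg
    ⟨0, by simp, hg0⟩
  have hQr : ∀ z : ℂ, Q.eval z = Q.leadingCoeff * (Q.roots.map fun a => z - a).prod := by
    intro z
    have h1 := (IsAlgClosed.splits Q).eq_prod_roots
    conv_lhs => rw [h1]
    rw [Polynomial.eval_mul, Polynomial.eval_C, Polynomial.eval_multiset_prod, Multiset.map_map]
    simp
  set s := Q.roots.filter fun a => ‖a‖ < 1 with hs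
  set s' := Q.roots.filter fun a => ¬ ‖a‖ < 1 with hs'
  have hsplit : s + s' = Q.roots := Multiset.filter_add_not _ _
  set k : ℂ → ℂ := fun z => Q.leadingCoeff * (s'.map fun a => z - a).prod * k0 z with hk
  have hs1 : ∀ a ∈ s, ‖a‖ < 1 := fun a ha => (Multiset.mem_filter.1 ha).2
  have hgk : ∀ z ∈ closedBall (0 : ℂ) 2, g z = (s.map fun a => z - a).prod * k z := by
    intro z hz
    rw [hfac z hz, hQr, ← hsplit, Multiset.map_add, Multiset.prod_add, hk]
    ring
  have hkd : DifferentiableOn ℂ k (closedBall 0 2) := by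
    rw [hk]
    refine DifferentiableOn.mul (DifferentiableOn.mul (differentiableOn_const _) ?_) hk0.differentiableOn
    exact mprod_anal s' (fun a z => z - a) _ fun a _ => by fun_prop
  have hkn : ∀ z ∈ ball (0 : ℂ) 1, k z ≠ 0 := by
    intro z hz
    rw [hk]
    refine mul_ne_zero (mul_ne_zero (Polynomial.leadingCoeff_ne_zero.2 hQ0) ?_)
      (hk0n z (ball_subset_closedBall (ball_subset_ball (by norm_num) hz)))
    apply Multiset.prod_ne_zero
    intro h
    obtain ⟨a, ha, h2⟩ := Multiset.mem_map.1 h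
    have h1 := (Multiset.mem_filter.1 ha).2
    rw [← sub_eq_zero.1 h2] at h1
    exact h1 (by simpa using hz)
  have hk0' : ‖g 0‖ ≤ ‖k 0‖ := by
    rw [hgk 0 (by simp), norm_mul, mprod_norm]
    have h1 : (s.map fun a => ‖(0 : ℂ) - a‖).prod ≤ (s.map fun _ => (1 : ℝ)).prod :=
      mprod_mono s _ _ (fun a _ => norm_nonneg _) fun a ha => by
        rw [zero_sub, norm_neg]; exact (hs1 a ha).le
    rw [Multiset.map_const', Multiset.prod_replicate, one_pow] at h1
    calc _ ≤ 1 * ‖k 0‖ := mul_le_mul_of_nonneg_right h1 (norm_nonneg _)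
      _ = _ := one_mul _
  have hcl : closure (ball (0 : ℂ) 2) = closedBall 0 2 := closure_ball _ (by norm_num)
  have hfr : frontier (ball (0 : ℂ) 2) = sphere 0 2 := frontier_ball _ (by norm_num)
  have hmax : ∀ h : ℂ → ℂ, DifferentiableOn ℂ h (closedBall 0 2) →
      (∀ z ∈ sphere (0 : ℂ) 2, ‖h z‖ ≤ Real.exp A) → ∀ z ∈ closedBall (0 : ℂ) 2, ‖h z‖ ≤ Real.exp A := by
    intro h hd hb z hz
    refine Complex.norm_le_of_forall_mem_frontier_norm_le (U := ball (0 : ℂ) 2) isBounded_ball
      ?_ ?_ (by rw [hcl]; exact hz)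
    · apply DifferentiableOn.diffContOnCl
      rw [hcl]; exact hd
    · rw [hfr]; exact hb
  have hkA : ∀ z ∈ closedBall (0 : ℂ) 2, ‖k z‖ ≤ Real.exp A := by
    apply hmax k hkd
    intro z hz
    have hz2 : ‖z‖ = 2 := by simpa using hz
    have h1 := hup z (sphere_subset_closedBall hz)
    rw [hgk z (sphere_subset_closedBall hz), norm_mul, mprod_norm] at h1
    have h2 : (1 : ℝ) ^ (Multiset.card s) ≤ (s.map fun a => ‖z - a‖).prod := by
      apply mprod_ge s _ 1 (by norm_num)
      intro a ha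
      have h3 := norm_sub_norm_le z a
      have h4 := hs1 a ha
      linarith
    rw [one_pow] at h2
    calc ‖k z‖ = 1 * ‖k z‖ := (one_mul _).symm
      _ ≤ _ := mul_le_mul_of_nonneg_right h2 (norm_nonneg _)
      _ ≤ _ := h1
  have hcount : ((Multiset.card s : ℕ) : ℝ) ≤ 3 * A := by
    set h : ℂ → ℂ := fun z => (s.map fun a => (4 - (starRingEnd ℂ) a * z) / 2).prod * k z with hh
    have hhd : DifferentiableOn ℂ h (closedBall 0 2) :=
      (mprod_anal s (fun a z => (4 - (starRingEnd ℂ) a * z) / 2) _ fun a _ => by fun_prop).mul hkd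
    have hhb : ∀ z ∈ sphere (0 : ℂ) 2, ‖h z‖ ≤ Real.exp A := by
      intro z hz
      have hz2 : ‖z‖ = 2 := by simpa using hz
      have h1 := hup z (sphere_subset_closedBall hz)
      rw [hgk z (sphere_subset_closedBall hz), norm_mul, mprod_norm] at h1
      rw [hh]
      simp only
      rw [norm_mul, mprod_norm]
      have h2 : (s.map fun a => ‖(4 - (starRingEnd ℂ) a * z) / 2‖) = s.map fun a => ‖z - a‖ := by
        apply Multiset.map_congr rfl
        intro a _
        have h3 : (4 : ℂ) = z * (starRingEnd ℂ) z := by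
          rw [mul_conj, normSq_eq_norm_sq, hz2]; norm_num
        have h4 : (4 - (starRingEnd ℂ) a * z) / 2 = z * (starRingEnd ℂ) (z - a) / 2 := by
          rw [h3, map_sub]; ring
        rw [h4, norm_div, norm_mul, norm_conj, hz2]
        norm_num
      rw [h2]
      exact h1
    have h5 := hmax h hhd hhb 0 (by simp)
    rw [hh] at h5
    simp only [mul_zero, sub_zero] at h5
    rw [Multiset.map_const', Multiset.prod_replicate, norm_mul, norm_pow] at h5
    have h6 : ‖(4 / 2 : ℂ)‖ = 2 := by norm_num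
    rw [h6] at h5
    have h7 : Real.exp (-A) * 2 ^ (Multiset.card s) ≤ Real.exp A := by
      calc _ ≤ ‖k 0‖ * 2 ^ (Multiset.card s) :=
            mul_le_mul_of_nonneg_right (h0.trans hk0') (by positivity)
        _ ≤ _ := by rw [mul_comm]; exact h5
    have h8 := Real.log_le_log (by positivity) h7
    rw [Real.log_mul (by positivity) (by positivity), Real.log_exp, Real.log_exp, Real.log_pow] at h8
    have h9 := Real.log_two_gt_d9
    have h10 : (0 : ℝ) ≤ (Multiset.card s : ℕ) := Nat.cast_nonneg _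
    nlinarith
  refine ⟨s, k, hcount, hs1, hkd, hkn, hkA, h0.trans hk0', hgk, ?_⟩
  intro a ha
  have ha1 := hs1 a ha
  have h1 : Q.eval a = 0 := by
    have := (Multiset.mem_filter.1 ha).1
    exact (Polynomial.mem_roots'.1 this).2
  rw [hfac a (by rw [mem_closedBall_zero_iff]; linarith), h1, zero_mul]

/-- minimum modulus on a small circle -/
theorem minmod {g : ℂ → ℂ} {A : ℝ} (hA : 0 < A) (hg : AnalyticOnNhd ℂ g (closedBall 0 2))
    (hup : ∀ z ∈ closedBall (0 : ℂ) 2, ‖g z‖ ≤ Real.exp A) (h0 : Real.exp (-A) ≤ ‖g 0‖)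
    {p : ℂ} (hp : ‖p‖ ≤ 1 / 4) {ρ : ℝ} (hρ : 0 < ρ) (hρ1 : ρ ≤ 1 / 8) :
    ∃ r : ℝ, ρ ≤ r ∧ r ≤ 2 * ρ ∧ ∀ z : ℂ, ‖z - p‖ = r →
      Real.exp (-(A * (9 + 3 * Real.log (4 / ρ)))) ≤ ‖g z‖ := by
  obtain ⟨s, k, hcard, hs1, hkd, hkn, hkA, hk0, hgk, -⟩ := decomp hA hg hup h0
  obtain ⟨r, hr1, hr2, hr⟩ := real_prod (s.map fun a => ‖a - p‖) ρ hρ
  refine ⟨r, hr1, hr2, fun z hz => ?_⟩
  rw [Multiset.card_map, Multiset.map_map] at hr
  have hzn : ‖z‖ ≤ 1 / 2 := by
    have h1 : z = (z - p) + p := by ring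
    rw [h1]
    refine (norm_add_le _ _).trans ?_
    rw [hz]; linarith
  have hz2 : z ∈ closedBall (0 : ℂ) 2 := by rw [mem_closedBall_zero_iff]; linarith
  have hharn := Pool.Agent.Helper242.RK.harnack (f := k) (c := 0) (r := 1) (M1 := A) (M2 := A)
    one_pos (hkd.mono (ball_subset_closedBall.trans (closedBall_subset_closedBall (by norm_num))))
    hkn (fun w hw => hkA w (closedBall_subset_closedBall (by norm_num) (ball_subset_closedBall hw)))
    hk0 (by linarith) (z := z) (by rw [mem_ball_zero_iff]; linarith)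
  have h9 : Real.exp (-(9 * A)) ≤ ‖k z‖ := by
    refine le_trans ?_ hharn
    apply Real.exp_le_exp.2
    rw [sub_zero]
    have h1 : 2 * (A + A) * 1 / (1 - ‖z‖) ≤ 8 * A := by
      rw [div_le_iff₀ (by linarith)]
      nlinarith
    linarith
  have hprod : (ρ / 4) ^ (Multiset.card s) ≤ (s.map fun a => ‖z - a‖).prod := by
    refine hr.trans ?_
    apply mprod_mono s _ _ (fun a _ => abs_nonneg _)
    intro a _
    have h1 := abs_norm_sub_norm_le (z - p) (a - p)
    rw [hz, sub_sub_sub_cancel_right] at h1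
    exact h1
  have hlog : 0 ≤ Real.log (4 / ρ) := Real.log_nonneg (by rw [le_div_iff₀ hρ]; linarith)
  have hpow : Real.exp (-(3 * A * Real.log (4 / ρ))) ≤ (ρ / 4) ^ (Multiset.card s) := by
    have h1 : ρ / 4 = Real.exp (-Real.log (4 / ρ)) := by
      rw [Real.exp_neg, Real.exp_log (by positivity), inv_div]
    rw [h1, ← Real.exp_nat_mul]
    apply Real.exp_le_exp.2
    nlinarith
  rw [hgk z hz2, norm_mul, mprod_norm]
  calc Real.exp (-(A * (9 + 3 * Real.log (4 / ρ))))
      = Real.exp (-(3 * A * Real.log (4 / ρ))) * Real.exp (-(9 * A)) := by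
        rw [← Real.exp_add]; congr 1; ring
    _ ≤ _ := mul_le_mul (hpow.trans hprod) h9 (Real.exp_pos _).le
        ((by positivity : (0 : ℝ) ≤ (ρ / 4) ^ (Multiset.card s)).trans hprod)

end Q240.QS
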