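import Pool.Agent.H382R2.Gam

/-!
# Derivatives of a function whose logarithmic derivative is almost constant
-/

set_option autoImplicit false

namespace Q240.QS

open Complex Filter Topology Metric Set

theorem exp_sub_one_le {e : ℝ} (h0 : 0 ≤ e) (h1 : e ≤ 1) : Real.exp e - 1 ≤ 2 * e := by
  have h := Real.exp_bound' h0 h1 (n := 1) one_pos
  simp at h
  linarith

theorem iter_exp (a s0 c : ℂ) (k : ℕ) (s : ℂ) :
    iteratedDeriv k (fun s => c * cexp (a * (s - s0))) s = a ^ k * (c * cexp (a * (s - s0))) := by
  induction k generalizing s with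
  | zero => simp
  | succ k ih =>
    rw [iteratedDeriv_succ]
    have : iteratedDeriv k (fun s => c * cexp (a * (s - s0))) =
        fun s => a ^ k * (c * cexp (a * (s - s0))) := by
      funext s; exact ih s
    rw [this]
    have h1 : HasDerivAt (fun s : ℂ => a * (s - s0)) (a * 1) s :=
      ((hasDerivAt_id s).sub_const s0).const_mul a
    have h2 := ((h1.cexp).const_mul c).const_mul (a ^ k)
    rw [h2.deriv]
    ring

/-- If `F'/F` is within `ε L` of `-L` on the closed disc of radius `1/L` then `F^(k)` is
close to `(-L)^k F` at the centre. -/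
theorem quot {F : ℂ → ℂ} {s0 : ℂ} {L ε : ℝ} (hL : 0 < L) (hε : 0 ≤ ε) (hε1 : ε ≤ 1)
    (hF : ∀ s ∈ closedBall s0 (1 / L), DifferentiableAt ℂ F s ∧ F s ≠ 0 ∧
      ‖logDeriv F s + L‖ ≤ ε * L) (k : ℕ) (hk : ContDiffAt ℂ k F s0) :
    ‖iteratedDeriv k F s0 - (-(L : ℂ)) ^ k * F s0‖ ≤ k.factorial * (6 * ε) * L ^ k * ‖F s0‖ := by
  set E : ℂ → ℂ := fun s => F s0 * cexp (-(L : ℂ) * (s - s0)) with hE
  have hEd : Differentiable ℂ E := by
    rw [hE]; fun_prop
  -- comparison on the disc
  have hcmp : ∀ s ∈ closedBall s0 (1 / L), ‖F s - E s‖ ≤ 6 * ε * ‖F s0‖ := by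
    intro s hs
    set d : ℂ := s - s0 with hd
    have hdn : ‖d‖ ≤ 1 / L := by rw [hd, ← dist_eq_norm]; exact hs
    rcases hε.eq_or_lt with h0 | hpos
    · -- `ε = 0` follows by continuity; treat it directly
      have key : ∀ η : ℝ, 0 < η → η ≤ 1 → ‖F s - E s‖ ≤ 6 * η * ‖F s0‖ := by
        intro η hη hη1
        have h1 := SG.GamAux.gron (fun x : ℝ => F (s0 + x * d) * cexp (L * (x * d)))
          (fun x : ℝ => F (s0 + x * d) * cexp (L * (x * d)) * ((logDeriv F (s0 + x * d) + L) * d))
          η hη ?_ ?_
        · have h2 := h1.2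
          simp only [ofReal_one, one_mul, ofReal_zero, zero_mul, add_zero, mul_zero,
            Complex.exp_zero, mul_one] at h2
          have h3 : s0 + d = s := by rw [hd]; ring
          rw [h3] at h2
          have h4 : F s - E s = cexp (-(L * d)) * (F s * cexp (L * d) - F s0) := by
            rw [hE, mul_sub, ← mul_assoc, mul_comm (cexp (-(L * d))) (F s), mul_assoc,
              ← Complex.exp_add, neg_add_cancel, Complex.exp_zero, mul_one]
            simp only
            rw [← hd, neg_mul, mul_comm (cexp (-(L * d))) (F s0)]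
          have h5 : ‖cexp (-(L * d))‖ ≤ Real.exp 1 := by
            rw [norm_exp]
            apply Real.exp_le_exp.2
            refine (Complex.re_le_norm _).trans ?_
            rw [norm_neg, norm_mul, norm_real, Real.norm_of_nonneg hL.le]
            calc L * ‖d‖ ≤ L * (1 / L) := mul_le_mul_of_nonneg_left hdn hL.le
              _ = 1 := by field_simp
          rw [h4, norm_mul]
          have h6 := exp_sub_one_le hη.le hη1
          have h7 := Real.exp_one_lt_d9
          calc ‖cexp (-(L * d))‖ * ‖F s * cexp (L * d) - F s0‖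
              ≤ Real.exp 1 * ((Real.exp η - 1) * ‖F s0‖) :=
                mul_le_mul h5 h2 (norm_nonneg _) (Real.exp_pos _).le
            _ ≤ Real.exp 1 * ((2 * η) * ‖F s0‖) := by gcongr
            _ ≤ 3 * ((2 * η) * ‖F s0‖) := by
                apply mul_le_mul_of_nonneg_right (by linarith) (by positivity)
            _ = 6 * η * ‖F s0‖ := by ring
        · intro x hx
          have hmem : s0 + x * d ∈ closedBall s0 (1 / L) := by
            rw [mem_closedBall, dist_eq_norm, add_sub_cancel_left, norm_mul, norm_real,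
              Real.norm_of_nonneg hx.1]
            calc x * ‖d‖ ≤ 1 * ‖d‖ := mul_le_mul_of_nonneg_right hx.2 (norm_nonneg _)
              _ ≤ _ := by rw [one_mul]; exact hdn
          obtain ⟨g1, g2, -⟩ := hF _ hmem
          have h0 : HasDerivAt (fun x : ℝ => (x : ℂ)) 1 x := Complex.ofRealCLM.hasDerivAt
          have hlin : HasDerivAt (fun x : ℝ => s0 + (x : ℂ) * d) d x := by
            simpa using (h0.mul_const d).const_add s0
          have k1 : HasDerivAt (fun x : ℝ => F (s0 + x * d)) (deriv F (s0 + x * d) * d) x :=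
            HasDerivAt.comp x g1.hasDerivAt hlin
          have k2 : HasDerivAt (fun x : ℝ => cexp (L * (x * d))) (cexp (L * (x * d)) * (L * d)) x := by
            have k3 : HasDerivAt (fun x : ℝ => (L : ℂ) * ((x : ℂ) * d)) (L * (1 * d)) x :=
              (h0.mul_const d).const_mul _
            simpa using k3.cexp
          refine (k1.mul k2).congr_deriv ?_
          rw [logDeriv_apply]
          field_simp
        · intro x hx
          have hmem : s0 + x * d ∈ closedBall s0 (1 / L) := by
            rw [mem_closedBall, dist_eq_norm, add_sub_cancel_left, norm_mul, norm_real,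
              Real.norm_of_nonneg hx.1]
            calc x * ‖d‖ ≤ 1 * ‖d‖ := mul_le_mul_of_nonneg_right hx.2 (norm_nonneg _)
              _ ≤ _ := by rw [one_mul]; exact hdn
          obtain ⟨-, -, g3⟩ := hF _ hmem
          rw [norm_mul, mul_comm, norm_mul]
          apply mul_le_mul_of_nonneg_right _ (norm_nonneg _)
          calc ‖logDeriv F (s0 + x * d) + L‖ * ‖d‖ ≤ (ε * L) * (1 / L) :=
                mul_le_mul g3 hdn (norm_nonneg _) (by positivity)
            _ = ε := by field_simp
            _ ≤ η := by rw [← h0]; exact hη.le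
      have h8 : ‖F s - E s‖ ≤ 6 * 0 * ‖F s0‖ := by
        by_contra hcon
        push Not at hcon
        rw [mul_zero, zero_mul] at hcon
        set η : ℝ := min 1 (‖F s - E s‖ / (12 * (‖F s0‖ + 1))) with hη
        have hη0 : 0 < η := by
          have := norm_nonneg (F s0)
          positivity
        have h9 := key η hη0 (min_le_left _ _)
        have h10 : η ≤ ‖F s - E s‖ / (12 * (‖F s0‖ + 1)) := min_le_right _ _
        have h11 : 6 * η * ‖F s0‖ ≤ ‖F s - E s‖ / 2 := by
          have h12 := norm_nonneg (F s0)
          calc 6 * η * ‖F s0‖ ≤ 6 * (‖F s - E s‖ / (12 * (‖F s0‖ + 1))) * (‖F s0‖ + 1) := by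
                gcongr; linarith
            _ = ‖F s - E s‖ / 2 := by field_simp; norm_num
        linarith
      rw [← h0]; exact h8
    · have h1 := SG.GamAux.gron (fun x : ℝ => F (s0 + x * d) * cexp (L * (x * d)))
        (fun x : ℝ => F (s0 + x * d) * cexp (L * (x * d)) * ((logDeriv F (s0 + x * d) + L) * d))
        ε hpos ?_ ?_
      · have h2 := h1.2
        simp only [ofReal_one, one_mul, ofReal_zero, zero_mul, add_zero, mul_zero,
          Complex.exp_zero, mul_one] at h2
        have h3 : s0 + d = s := by rw [hd]; ring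
        rw [h3] at h2
        have h4 : F s - E s = cexp (-(L * d)) * (F s * cexp (L * d) - F s0) := by
          rw [hE, mul_sub, ← mul_assoc, mul_comm (cexp (-(L * d))) (F s), mul_assoc,
            ← Complex.exp_add, neg_add_cancel, Complex.exp_zero, mul_one]
          simp only
          rw [← hd, neg_mul, mul_comm (cexp (-(L * d))) (F s0)]
        have h5 : ‖cexp (-(L * d))‖ ≤ Real.exp 1 := by
          rw [norm_exp]
          apply Real.exp_le_exp.2
          refine (Complex.re_le_norm _).trans ?_
          rw [norm_neg, norm_mul, norm_real, Real.norm_of_nonneg hL.le]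
          calc L * ‖d‖ ≤ L * (1 / L) := mul_le_mul_of_nonneg_left hdn hL.le
            _ = 1 := by field_simp
        rw [h4, norm_mul]
        have h6 := exp_sub_one_le hε hε1
        have h7 := Real.exp_one_lt_d9
        calc ‖cexp (-(L * d))‖ * ‖F s * cexp (L * d) - F s0‖
            ≤ Real.exp 1 * ((Real.exp ε - 1) * ‖F s0‖) :=
              mul_le_mul h5 h2 (norm_nonneg _) (Real.exp_pos _).le
          _ ≤ Real.exp 1 * ((2 * ε) * ‖F s0‖) := by gcongr
          _ ≤ 3 * ((2 * ε) * ‖F s0‖) := by
              apply mul_le_mul_of_nonneg_right (by linarith) (by positivity)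
          _ = 6 * ε * ‖F s0‖ := by ring
      · intro x hx
        have hmem : s0 + x * d ∈ closedBall s0 (1 / L) := by
          rw [mem_closedBall, dist_eq_norm, add_sub_cancel_left, norm_mul, norm_real,
            Real.norm_of_nonneg hx.1]
          calc x * ‖d‖ ≤ 1 * ‖d‖ := mul_le_mul_of_nonneg_right hx.2 (norm_nonneg _)
            _ ≤ _ := by rw [one_mul]; exact hdn
        obtain ⟨g1, g2, -⟩ := hF _ hmem
        have h0 : HasDerivAt (fun x : ℝ => (x : ℂ)) 1 x := Complex.ofRealCLM.hasDerivAt
        have hlin : HasDerivAt (fun x : ℝ => s0 + (x : ℂ) * d) d x := by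
          simpa using (h0.mul_const d).const_add s0
        have k1 : HasDerivAt (fun x : ℝ => F (s0 + x * d)) (deriv F (s0 + x * d) * d) x :=
          HasDerivAt.comp x g1.hasDerivAt hlin
        have k2 : HasDerivAt (fun x : ℝ => cexp (L * (x * d))) (cexp (L * (x * d)) * (L * d)) x := by
          have k3 : HasDerivAt (fun x : ℝ => (L : ℂ) * ((x : ℂ) * d)) (L * (1 * d)) x :=
            (h0.mul_const d).const_mul _
          simpa using k3.cexp
        refine (k1.mul k2).congr_deriv ?_
        rw [logDeriv_apply]
        field_simp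
      · intro x hx
        have hmem : s0 + x * d ∈ closedBall s0 (1 / L) := by
          rw [mem_closedBall, dist_eq_norm, add_sub_cancel_left, norm_mul, norm_real,
            Real.norm_of_nonneg hx.1]
          calc x * ‖d‖ ≤ 1 * ‖d‖ := mul_le_mul_of_nonneg_right hx.2 (norm_nonneg _)
            _ ≤ _ := by rw [one_mul]; exact hdn
        obtain ⟨-, -, g3⟩ := hF _ hmem
        rw [norm_mul, mul_comm, norm_mul]
        apply mul_le_mul_of_nonneg_right _ (norm_nonneg _)
        calc ‖logDeriv F (s0 + x * d) + L‖ * ‖d‖ ≤ (ε * L) * (1 / L) :=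
              mul_le_mul g3 hdn (norm_nonneg _) (by positivity)
          _ = ε := by field_simp
  have hR : 0 < 1 / L := by positivity
  have hdc : DiffContOnCl ℂ (fun s => F s - E s) (ball s0 (1 / L)) := by
    apply DifferentiableOn.diffContOnCl
    rw [closure_ball _ hR.ne']
    exact fun s hs => ((hF s hs).1.sub (hEd s)).differentiableWithinAt
  have hcau := Complex.norm_iteratedDeriv_le_of_forall_mem_sphere_norm_le k hR hdc
    (fun s hs => hcmp s (sphere_subset_closedBall hs))
  have hsub : iteratedDeriv k (fun s => F s - E s) s0 =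
      iteratedDeriv k F s0 - (-(L : ℂ)) ^ k * F s0 := by
    have hEc : ContDiffAt ℂ k E s0 := hEd.contDiff.contDiffAt
    have h1 := iteratedDeriv_fun_sub hk hEc
    rw [h1]
    congr 1
    rw [hE, iter_exp, sub_self, mul_zero, Complex.exp_zero, mul_one]
  rw [hsub] at hcau
  refine hcau.trans (le_of_eq ?_)
  rw [one_div, inv_pow, div_inv_eq_mul]
  ring

end Q240.QS
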