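import Pool.Agent.Q240.QS.FE
import Pool.Agent.Q240.QS.Quot
import Pool.Agent.Q240.QS.Growth
import Pool.Agent.H986R2.K4.A1
import Pool.Agent.H986R2.K4.SAB
import Pool.Agent.W190.C3

/-!
# Heights at which zeta has a small logarithmic derivative
-/

set_option autoImplicit false

namespace Q240.QS

open Complex Filter Topology Metric Set
open Pool.Agent.H986R2.K4 (a1 sab)
open H353 (FF FF_bound)

/-- the logarithmic derivative is small near height `t` to the right of `x0` -/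
def Gd (t x0 ε : ℝ) : Prop := ∀ w : ℂ, x0 ≤ w.re → w.re ≤ 3 → |w.im - t| ≤ 1 / 4 →
  riemannZeta w ≠ 0 ∧ ‖logDeriv riemannZeta w‖ ≤ ε * Real.log t

theorem Gd.mono {t x0 x1 ε ε' : ℝ} (h : Gd t x0 ε) (h1 : x0 ≤ x1) (h2 : ε ≤ ε') (ht : 1 ≤ t) :
    Gd t x1 ε' := fun w hw1 hw2 hw3 => by
  obtain ⟨a, b⟩ := h w (h1.trans hw1) hw2 hw3
  exact ⟨a, b.trans (mul_le_mul_of_nonneg_right h2 (Real.log_nonneg ht))⟩

theorem gd_right (ε : ℝ) (hε : 0 < ε) : ∃ T0 : ℝ, 2 ≤ T0 ∧ ∀ t : ℝ, T0 ≤ t → Gd t (1 + ε) ε ∧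
    ∀ s : ℂ, 1 + ε ≤ s.re → |s.im - t| ≤ 1 → t ^ (-ε) ≤ ‖riemannZeta s‖ ∧ ‖riemannZeta s‖ ≤ t ^ ε := by
  obtain ⟨t1, ht1, h⟩ := a1 (ε / 2) (by positivity)
  refine ⟨t1 + 1, by linarith, fun t ht => ?_⟩
  have hlog : ∀ x : ℝ, 0 < x → x ≤ t + 1 → Real.log x ≤ 2 * Real.log t := by
    intro x hx hx1
    have h1 : Real.log x ≤ Real.log (t ^ 2) := Real.log_le_log hx (by nlinarith)
    rwa [Real.log_pow] at h1
  refine ⟨fun w h1 h2 h3 => ?_, fun s h1 h3 => ?_⟩
  · have h4 := abs_le.1 h3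
    obtain ⟨a, b, -, -⟩ := h w (by linarith) (by linarith)
    refine ⟨a, b.trans ?_⟩
    have := hlog w.im (by linarith) (by linarith)
    nlinarith
  · have h4 := abs_le.1 h3
    obtain ⟨-, -, a, b⟩ := h s (by linarith) (by linarith)
    have hs0 : 0 < s.im := by linarith
    have ht0 : 0 < t := by linarith
    have h5 := hlog s.im hs0 (by linarith)
    constructor
    · refine le_trans ?_ a
      rw [Real.rpow_def_of_pos ht0, Real.rpow_def_of_pos hs0]
      apply Real.exp_le_exp.2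
      nlinarith
    · refine b.trans ?_
      rw [Real.rpow_def_of_pos ht0, Real.rpow_def_of_pos hs0]
      apply Real.exp_le_exp.2
      nlinarith

/-- a window without zeros far to the right -/
theorem window : ∃ T0 : ℝ, 100 ≤ T0 ∧ ∀ T : ℝ, T0 ≤ T → ∃ Y : ℝ, T / 2 ≤ Y ∧ Y ≤ T - 1 ∧
    ∀ w : ℂ, 9 / 10 ≤ w.re → |w.im - Y| ≤ 10 → riemannZeta w ≠ 0 := by
  classical
  obtain ⟨C, hC, hD⟩ := Pool.Agent.W190.carlson (9 / 10) (14 / 100) (by norm_num) (by norm_num)
    (by norm_num)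
  have he : 4 * (9 / 10 : ℝ) * (1 - 9 / 10) + 14 / 100 = 1 / 2 := by norm_num
  rw [he] at hD
  refine ⟨max 1000 ((300 * C) ^ 2 + 1), by
    refine le_trans (by norm_num) (le_max_left _ _), fun T hT => ?_⟩
  have hT1 : 1000 ≤ T := (le_max_left _ _).trans hT
  have hT2 : (300 * C) ^ 2 + 1 ≤ T := (le_max_right _ _).trans hT
  by_contra hcon
  push Not at hcon
  set J : ℕ := ⌊T / 100⌋₊ with hJ
  have hJ1 : (J : ℝ) ≤ T / 100 := Nat.floor_le (by linarith)
  have hJ2 : T / 100 - 1 < J := by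
    have := Nat.lt_floor_add_one (T / 100)
    linarith
  have hz : ∀ j : ℕ, j < J → ∃ w : ℂ, 9 / 10 ≤ w.re ∧ |w.im - (T / 2 + 10 + 25 * j)| ≤ 10 ∧
      riemannZeta w = 0 := by
    intro j hj
    have hjJ : (j : ℝ) + 1 ≤ J := by exact_mod_cast hj
    exact hcon (T / 2 + 10 + 25 * j) (by
      have : (0 : ℝ) ≤ j := Nat.cast_nonneg j
      linarith) (by linarith)
  choose! w hw1 hw2 hw3 using hz
  set S : Finset ℂ := (Finset.range J).image w with hS
  have hinj : Set.InjOn w (Finset.range J : Set ℕ) := by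
    intro i hi j hj hij
    simp only [Finset.coe_range, Set.mem_Iio] at hi hj
    have h1 := abs_le.1 (hw2 i hi)
    have h2 := abs_le.1 (hw2 j hj)
    rw [hij] at h1
    by_contra hne
    rcases Nat.lt_or_gt_of_ne hne with h | h
    · have : (i : ℝ) + 1 ≤ j := by exact_mod_cast h
      linarith
    · have : (j : ℝ) + 1 ≤ i := by exact_mod_cast h
      linarith
  have hcard : S.card = J := by
    rw [hS, Finset.card_image_of_injOn hinj, Finset.card_range]
  have hFF : ∀ v : ℂ, riemannZeta v = 0 → FF v = 0 := by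
    intro v hv
    have hv1 : v ≠ 1 := by
      rintro rfl
      exact riemannZeta_one_ne_zero hv
    rw [FF_ne' hv1, hv, mul_zero]
  have hsum := hD T (by linarith) S (by
    intro ρ hρ
    obtain ⟨j, hj, rfl⟩ := Finset.mem_image.1 hρ
    have hj' := Finset.mem_range.1 hj
    have h1 := abs_le.1 (hw2 j hj')
    have hjJ : (j : ℝ) + 1 ≤ J := by exact_mod_cast hj'
    have hj0 : (0 : ℝ) ≤ j := Nat.cast_nonneg j
    refine ⟨hFF _ (hw3 j hj'), hw1 j hj', ?_⟩
    rw [abs_le]; constructor <;> linarith)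
  have hlow : (J : ℝ) ≤ ∑ ρ ∈ S, (H353.mu ρ : ℝ) := by
    rw [← hcard, ← nsmul_one S.card, ← Finset.sum_const]
    apply Finset.sum_le_sum
    intro ρ hρ
    obtain ⟨j, hj, rfl⟩ := Finset.mem_image.1 hρ
    have hj' := Finset.mem_range.1 hj
    have := H353.mu_pos _ (hFF _ (hw3 j hj'))
    exact_mod_cast this
  have h1 : T / 100 - 1 < C * T ^ (1 / 2 : ℝ) := by linarith
  rw [← Real.sqrt_eq_rpow] at h1
  have hs : 300 * C ≤ Real.sqrt T := by
    rw [← Real.sqrt_sq (by positivity : (0 : ℝ) ≤ 300 * C)]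
    exact Real.sqrt_le_sqrt (by linarith)
  have hs2 : Real.sqrt T * Real.sqrt T = T := Real.mul_self_sqrt (by linarith)
  have hs0 : 0 ≤ Real.sqrt T := Real.sqrt_nonneg T
  nlinarith

theorem barrier (ε : ℝ) (hε : 0 < ε) : ∃ T0 : ℝ, 100 ≤ T0 ∧ ∀ T : ℝ, T0 ≤ T → ∃ Y : ℝ,
    T / 2 ≤ Y ∧ Y ≤ T - 1 ∧ Gd Y (19 / 20) ε := by
  obtain ⟨T1, hT1, hwin⟩ := window
  obtain ⟨δ, hδ, hS⟩ := sab (1 / 4) (ε / 10) 2 (by norm_num) le_rfl (by positivity) (by norm_num)
  have hδ' : 0 < min δ (1 / 20) := lt_min hδ (by norm_num)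
  obtain ⟨T2, hT2, hr⟩ := gd_right (min δ (1 / 20)) hδ'
  obtain ⟨T3, hT3, hr'⟩ := gd_right (min ε (1 / 5)) (lt_min hε (by norm_num))
  refine ⟨max T1 (2 * (max T2 T3 + 100)), hT1.trans (le_max_left _ _), fun T hT => ?_⟩
  obtain ⟨Y, hY1, hY2, hY3⟩ := hwin T ((le_max_left _ _).trans hT)
  have hTb : 2 * (max T2 T3 + 100) ≤ T := (le_max_right _ _).trans hT
  have hYa : T2 ≤ Y := by
    have := le_max_left T2 T3
    linarith
  have hYb : T3 ≤ Y := by
    have := le_max_right T2 T3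
    linarith
  have hY100 : 100 ≤ Y := by
    have := le_max_left T2 T3
    linarith
  refine ⟨Y, hY1, hY2, ?_⟩
  obtain ⟨g1, g2⟩ := hr Y hYa
  obtain ⟨g3, -⟩ := hr' Y hYb
  have hlogpos : 1 ≤ Real.log Y := by
    rw [Real.le_log_iff_exp_le (by linarith)]
    linarith [Real.exp_one_lt_d9]
  set pt : ℂ → ℂ := fun u => ((9 / 10 : ℝ) : ℂ) + (Y : ℂ) * I + ((1 / 10 : ℝ) : ℂ) * u with hpt
  have hptre : ∀ u, (pt u).re = 9 / 10 + 1 / 10 * u.re := by
    intro u
    simp [hpt]
  have hptim : ∀ u, (pt u).im = Y + 1 / 10 * u.im := by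
    intro u
    simp [hpt]
  have hptd : ∀ u, HasDerivAt pt ((1 / 10 : ℝ) : ℂ) u := by
    intro u
    have h0 := ((hasDerivAt_id u).const_mul (((1 / 10 : ℝ) : ℂ))).const_add (((9 / 10 : ℝ) : ℂ) + (Y : ℂ) * I)
    exact h0.congr_deriv (mul_one _)
  have hcond1 : ∀ u : ℂ, 0 < u.re → u.re ≤ 10 → |u.im| ≤ 10 → pt u ≠ 1 ∧ riemannZeta (pt u) ≠ 0 := by
    intro u h1 h2 h3
    have h4 := abs_le.1 h3
    constructor
    · intro h
      have := congrArg Complex.im h
      rw [hptim, one_im] at this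
      linarith
    · apply hY3
      · rw [hptre]; linarith
      · rw [hptim, add_sub_cancel_left, abs_mul, abs_of_pos (by norm_num : (0 : ℝ) < 1 / 10)]
        linarith
  have hmain := hS (Real.log Y) (fun u => riemannZeta (pt u)) hlogpos (by
    intro u h1 h2 h3
    obtain ⟨h4, h5⟩ := hcond1 u h1 h2 h3
    have h3' := abs_le.1 h3
    refine ⟨(differentiableAt_riemannZeta h4).comp u (hptd u).differentiableAt, h5, ?_⟩
    have hb := FF_bound (1 / 2) (by norm_num) (pt u) (by rw [hptre]; linarith)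
    rw [FF_ne' h4, norm_mul] at hb
    have hn : ‖pt u‖ ≤ Y + 11 := by
      refine (norm_le_abs_re_add_abs_im _).trans ?_
      rw [hptre, hptim, abs_of_pos (by linarith), abs_of_pos (by linarith)]
      linarith
    have hn1 : Y - 1 ≤ ‖pt u - 1‖ := by
      have h6 := abs_im_le_norm (pt u - 1)
      rw [sub_im, one_im, sub_zero, hptim, abs_of_pos (by linarith)] at h6
      linarith
    have h7 : Real.exp (2 * Real.log Y) = Y ^ 2 := by
      rw [mul_comm, Real.exp_mul, Real.exp_log (by linarith)]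
      norm_num
    rw [h7]
    have h8 : (Y - 1) * ‖riemannZeta (pt u)‖ ≤ 3 * (Y + 12) ^ 2 := by
      calc (Y - 1) * ‖riemannZeta (pt u)‖ ≤ ‖pt u - 1‖ * ‖riemannZeta (pt u)‖ :=
            mul_le_mul_of_nonneg_right hn1 (norm_nonneg _)
        _ ≤ _ := hb
        _ ≤ (1 + 1 / (1 / 2)) * (1 + (Y + 11)) ^ 2 := by gcongr
        _ = 3 * (Y + 12) ^ 2 := by norm_num; ring
    have h9 : 3 * (Y + 12) ^ 2 ≤ (Y - 1) * Y ^ 2 := by nlinarith [sq_nonneg (Y - 100)]
    exact le_of_mul_le_mul_left (h8.trans h9) (by linarith)) (by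
    intro u h1 h2 h3
    have h3' := abs_le.1 h3
    have h4 := g2 (pt u) (by
      rw [hptre]
      have := min_le_right δ (1 / 20)
      linarith) (by
      rw [hptim, add_sub_cancel_left, abs_mul, abs_of_pos (by norm_num : (0 : ℝ) < 1 / 10)]
      linarith)
    have hYp : 0 < Y := by linarith
    rw [Real.rpow_def_of_pos hYp, Real.rpow_def_of_pos hYp] at h4
    have hm := min_le_left δ (1 / 20)
    constructor
    · refine le_trans ?_ h4.1
      apply Real.exp_le_exp.2
      nlinarith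
    · refine h4.2.trans ?_
      apply Real.exp_le_exp.2
      nlinarith)
  intro w h1 h2 h3
  have h3' := abs_le.1 h3
  rcases le_total w.re (6 / 5) with h4 | h4
  · set u : ℂ := 10 * (w - ((9 / 10 : ℝ) : ℂ) - (Y : ℂ) * I) with hu
    have hure : u.re = 10 * (w.re - 9 / 10) := by simp [hu]
    have huim : u.im = 10 * (w.im - Y) := by simp [hu]
    have hpu : pt u = w := by
      simp only [hpt, hu]
      push_cast
      ring
    have h5 : |u.im| ≤ 3 := by
      rw [huim, abs_le]; constructor <;> linarith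
    have hne := (hcond1 u (by rw [hure]; linarith) (by rw [hure]; linarith) (h5.trans (by norm_num))).2
    have hne1 := (hcond1 u (by rw [hure]; linarith) (by rw [hure]; linarith) (h5.trans (by norm_num))).1
    have h6 := (hmain u (by rw [hure]; linarith) (by rw [hure]; linarith) h5).1
    rw [hpu] at hne hne1
    refine ⟨hne, ?_⟩
    have h7 : logDeriv (fun u => riemannZeta (pt u)) u = ((1 / 10 : ℝ) : ℂ) * logDeriv riemannZeta w := by
      have h8 : HasDerivAt (fun u => riemannZeta (pt u)) (deriv riemannZeta (pt u) * ((1 / 10 : ℝ) : ℂ)) u := by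
        have hz := (differentiableAt_riemannZeta (s := pt u) (by rw [hpu]; exact hne1)).hasDerivAt
        exact HasDerivAt.comp u hz (hptd u)
      rw [logDeriv_apply, logDeriv_apply, h8.deriv, hpu]
      ring
    rw [h7, norm_mul, norm_real, Real.norm_of_nonneg (by norm_num)] at h6
    linarith
  · have h5 := g3 w (by
      have := min_le_right ε (1 / 5)
      linarith) h2 h3
    refine ⟨h5.1, h5.2.trans ?_⟩
    exact mul_le_mul_of_nonneg_right (min_le_left _ _) (by linarith)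

/-- derivatives of zeta where the logarithmic derivative is almost `-log t` -/
theorem ratio (k : ℕ) (ε : ℝ) (hε : 0 < ε) : ∃ ε' T0 : ℝ, 0 < ε' ∧ 3 ≤ T0 ∧ ∀ t x0 : ℝ, T0 ≤ t →
    Gd t x0 ε' → ∀ s : ℂ, s.im = t → -3 / 2 ≤ s.re → s.re ≤ 1 - x0 - 1 / Real.log t → s.re ≤ 3 / 2 →
    riemannZeta s ≠ 0 ∧ ‖iteratedDeriv k riemannZeta s - (-((Real.log t : ℝ) : ℂ)) ^ k * riemannZeta s‖ ≤
      ε * Real.log t ^ k * ‖riemannZeta s‖ := by
  obtain ⟨K, T1, hK, hT1, hfe⟩ := fe
  set f : ℝ := (k.factorial : ℝ) with hf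
  have hf1 : 1 ≤ f := by rw [hf]; exact_mod_cast Nat.one_le_iff_ne_zero.2 (Nat.factorial_ne_zero k)
  obtain ⟨ε', he⟩ : ∃ ε' : ℝ, ε' = min (1 / 2) (ε / (12 * f)) := ⟨_, rfl⟩
  have he0 : 0 < ε' := by rw [he]; positivity
  have he1 : ε' ≤ 1 / 2 := by rw [he]; exact min_le_left _ _
  have he2 : f * (12 * ε') ≤ ε := by
    have h1 : ε' ≤ ε / (12 * f) := by rw [he]; exact min_le_right _ _
    rw [le_div_iff₀ (by positivity)] at h1
    linarith
  obtain ⟨T2, hT2⟩ : ∃ T2 : ℝ, ∀ t : ℝ, T2 ≤ t → (K + 1) / ε' + 4 ≤ Real.log t :=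
    Filter.eventually_atTop.1 (Real.tendsto_log_atTop.eventually_ge_atTop _)
  refine ⟨ε', max 3 (max (T1 + 1) T2), he0, le_max_left _ _, ?_⟩
  intro t x0 ht hG s hst hsr1 hsr2 hsr3
  have ht3 : 3 ≤ t := (le_max_left _ _).trans ht
  have htT1 : T1 + 1 ≤ t := (le_max_left _ _).trans ((le_max_right _ _).trans ht)
  have htT2 : T2 ≤ t := (le_max_right _ _).trans ((le_max_right _ _).trans ht)
  obtain ⟨L, hL⟩ : ∃ L : ℝ, L = Real.log t := ⟨_, rfl⟩
  have hLb := hT2 t htT2
  rw [← hL] at hLb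
  have hKe : 0 < (K + 1) / ε' := by positivity
  have hL4 : 4 ≤ L := by linarith
  have hL0 : 0 < L := by linarith
  have hinv : 1 / L ≤ 1 / 4 := one_div_le_one_div_of_le (by norm_num) hL4
  have hinv0 : 0 < 1 / L := by positivity
  have hKL : K + 1 ≤ ε' * L := by
    have h1 : (K + 1) / ε' ≤ L := by linarith
    rw [div_le_iff₀ he0] at h1
    linarith
  rw [← hL] at hsr2 ⊢
  have hball : ∀ w ∈ closedBall s (1 / L), DifferentiableAt ℂ riemannZeta w ∧ riemannZeta w ≠ 0 ∧
      ‖logDeriv riemannZeta w + L‖ ≤ (2 * ε') * L := by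
    intro w hw
    rw [mem_closedBall, dist_eq_norm] at hw
    have h1 := abs_le.1 ((abs_re_le_norm (w - s)).trans hw)
    have h2 := abs_le.1 ((abs_im_le_norm (w - s)).trans hw)
    rw [sub_re] at h1
    rw [sub_im, hst] at h2
    have hwr : |w.re| ≤ 2 := by rw [abs_le]; constructor <;> linarith
    obtain ⟨f1, f2, f3⟩ := hfe w (by linarith) hwr
    obtain ⟨v, hv⟩ : ∃ v : ℂ, v = 1 - (starRingEnd ℂ) w := ⟨_, rfl⟩
    have hvre : v.re = 1 - w.re := by rw [hv]; simp
    have hvim : v.im = w.im := by rw [hv]; simp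
    rw [← hv] at f1 f2 f3
    obtain ⟨g1, g2⟩ := hG v (by rw [hvre]; linarith) (by rw [hvre]; linarith) (by
      rw [hvim, abs_le]; constructor <;> linarith)
    have hwi : 0 < w.im := by linarith
    have hw0 : riemannZeta w ≠ 0 := by
      intro h
      rw [h, norm_zero, mul_zero] at f2
      have h5 : 0 < w.im ^ (1 / 2 - w.re) * ‖riemannZeta v‖ :=
        mul_pos (Real.rpow_pos_of_pos hwi _) (norm_pos_iff.2 g1)
      linarith
    have hw1 : w ≠ 1 := by
      intro h
      rw [h, one_im] at hwi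
      exact lt_irrefl _ hwi
    refine ⟨differentiableAt_riemannZeta hw1, hw0, ?_⟩
    have h6 := f3 g1
    have hlog : |Real.log w.im - L| ≤ 1 := by
      rw [hL, ← Real.log_div hwi.ne' (by linarith)]
      have ht0 : 0 < t := by linarith
      have h8 : w.im / t ≤ 1 + 1 / 4 := by
        rw [div_le_iff₀ ht0]; nlinarith
      have h9 : 1 - 1 / 4 ≤ w.im / t := by
        rw [le_div_iff₀ ht0]; nlinarith
      have h10 : 0 < w.im / t := by positivity
      rw [abs_le]
      constructor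
      · have h11 := Real.one_sub_inv_le_log_of_pos h10
        have h12 : (w.im / t)⁻¹ ≤ 2 := by
          rw [inv_le_comm₀ h10 (by norm_num)]
          linarith
        linarith
      · have h11 := Real.log_le_sub_one_of_pos h10
        linarith
    have h7 : logDeriv riemannZeta w + L = (logDeriv riemannZeta w + Real.log w.im +
        (starRingEnd ℂ) (logDeriv riemannZeta v)) - (starRingEnd ℂ) (logDeriv riemannZeta v) -
        ((Real.log w.im - L : ℝ) : ℂ) := by
      push_cast; ring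
    rw [h7]
    refine (norm_sub_le _ _).trans ?_
    rw [norm_real, Real.norm_eq_abs]
    have h8 := norm_sub_le (logDeriv riemannZeta w + Real.log w.im +
        (starRingEnd ℂ) (logDeriv riemannZeta v)) ((starRingEnd ℂ) (logDeriv riemannZeta v))
    rw [Complex.norm_conj] at h8
    rw [← hL] at g2
    linarith
  have hs0 := (hball s (mem_closedBall_self hinv0.le)).2.1
  refine ⟨hs0, ?_⟩
  have hs1 : s ≠ 1 := by
    intro h
    rw [h, one_im] at hst
    linarith
  have hcd : ContDiffAt ℂ k riemannZeta s := by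
    have : AnalyticAt ℂ riemannZeta s := by
      have ho : IsOpen ({1}ᶜ : Set ℂ) := isOpen_compl_singleton
      exact DifferentiableOn.analyticAt (s := {1}ᶜ)
        (fun z hz => (differentiableAt_riemannZeta hz).differentiableWithinAt) (ho.mem_nhds hs1)
    exact this.contDiffAt
  have hq := quot (F := riemannZeta) hL0 (by positivity) (by linarith) hball k hcd
  refine hq.trans ?_
  rw [← hf]
  have h1 : f * (6 * (2 * ε')) ≤ ε := by linarith
  calc f * (6 * (2 * ε')) * L ^ k * ‖riemannZeta s‖ ≤ ε * L ^ k * ‖riemannZeta s‖ := by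
        gcongr
    _ = _ := rfl

end Q240.QS
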