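import Pool.Agent.Q240.QS.Top

/-!
# A zero of `F` forces a critical point of `F` in a long thin box
-/

set_option autoImplicit false

namespace Q240.QS

open Complex Filter Topology Metric Set

/-- the horizontal segment from `q` to the right edge -/
theorem seg_pre (q : ℂ) (d : ℝ) : IsPreconnected {z : ℂ | q.re ≤ z.re ∧ z.re < d ∧ z.im = q.im} := by
  apply Convex.isPreconnected
  intro x hx y hy a b ha hb hab
  simp only [mem_setOf_eq] at hx hy ⊢
  refine ⟨?_, ?_, ?_⟩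
  · simp only [add_re, Complex.real_smul, Complex.re_ofReal_mul]
    have : q.re = a * q.re + b * q.re := by rw [← add_mul, hab, one_mul]
    rw [this]
    exact add_le_add (mul_le_mul_of_nonneg_left hx.1 ha) (mul_le_mul_of_nonneg_left hy.1 hb)
  · simp only [add_re, Complex.real_smul, Complex.re_ofReal_mul]
    have h1 : d = a * d + b * d := by rw [← add_mul, hab, one_mul]
    rcases ha.eq_or_lt with h | h
    · rw [← h, zero_mul, zero_add]
      have hb1 : b = 1 := by linarith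
      rw [hb1, one_mul]; exact hy.2.1
    · nlinarith [hx.2.1, hy.2.1]
  · simp only [add_im, Complex.real_smul, Complex.im_ofReal_mul]
    rw [hx.2.2, hy.2.2, ← add_mul, hab, one_mul]

theorem seg_closure (q : ℂ) (d : ℝ) (h : q.re < d) :
    (d : ℂ) + q.im * I ∈ closure {z : ℂ | q.re ≤ z.re ∧ z.re < d ∧ z.im = q.im} := by
  have h1 : Tendsto (fun x : ℝ => (x : ℂ) + q.im * I) (𝓝[<] d) (𝓝 ((d : ℂ) + q.im * I)) := by
    have : Continuous fun x : ℝ => (x : ℂ) + q.im * I := by fun_prop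
    exact this.continuousAt.mono_left nhdsWithin_le_nhds
  refine mem_closure_of_tendsto h1 ?_
  filter_upwards [Ioo_mem_nhdsLT h] with x hx
  simp only [mem_setOf_eq, add_re, ofReal_re, mul_re, I_re, mul_zero, ofReal_im, I_im, mul_one,
    sub_self, add_zero, add_im, mul_im, zero_add]
  exact ⟨hx.1.le, hx.2, trivial⟩

theorem force {F : ℂ → ℂ} {Ω : Set ℂ} {ρ : ℂ} {δ c c' r0 Y0 Y1 Λ : ℝ}
    (hΩ : Ω = {s : ℂ | -1 < s.re ∧ s.re < δ ∧ Y0 - 1 < s.im ∧ s.im < Y1 + 1})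
    (hF : DifferentiableOn ℂ F Ω) (hF' : ∀ s ∈ Ω, deriv F s ≠ 0)
    (hρ0 : F ρ = 0) (hρr : -1 / 2 ≤ ρ.re) (hρc : ρ.re + r0 ≤ c) (hr0 : 0 < r0) (hc : c < c')
    (hc' : c' < δ) (hρY : Y0 < ρ.im) (hρY' : ρ.im < Y1)
    (hB0 : ∀ x y : ℝ, -1 < x → x < y → y < δ → ‖F (y + Y0 * I)‖ < ‖F (x + Y0 * I)‖)
    (hB1 : ∀ x y : ℝ, -1 < x → x < y → y < δ → ‖F (y + Y1 * I)‖ < ‖F (x + Y1 * I)‖)
    (hL : ∀ s : ℂ, -1 < s.re → s.re ≤ -1 / 2 → Y0 ≤ s.im → s.im ≤ Y1 → Λ ≤ ‖F s‖)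
    (hT : ∃ l : ℝ, 0 < l ∧ l < Λ ∧ ∀ x : ℝ, ρ.re ≤ x → x < δ → ‖F (x + ρ.im * I)‖ < l)
    (hM : ∀ q p : ℂ, c' ≤ q.re → q.re < δ → Y0 ≤ q.im → q.im ≤ Y1 → p.re = c → Y0 ≤ p.im →
      p.im ≤ Y1 → ∃ r : ℝ, 0 < r ∧ r < r0 ∧ ∀ z : ℂ, ‖z - p‖ = r → ‖F q‖ ≤ ‖F z‖) : False := by
  have hΩo : IsOpen Ω := by
    rw [hΩ]
    exact (isOpen_lt continuous_const continuous_re).inter ((isOpen_lt continuous_re continuous_const).inter
      ((isOpen_lt continuous_const continuous_im).inter (isOpen_lt continuous_im continuous_const)))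
  have hmem : ∀ s : ℂ, s ∈ Ω ↔ -1 < s.re ∧ s.re < δ ∧ Y0 - 1 < s.im ∧ s.im < Y1 + 1 := by
    intro s; rw [hΩ]; rfl
  have hρΩ : ρ ∈ Ω := (hmem ρ).2 ⟨by linarith, by linarith, by linarith, by linarith⟩
  obtain ⟨K, hK⟩ : ∃ K : Set ℂ, K = Icc (-1 / 2) c' ×ℂ Icc Y0 Y1 := ⟨_, rfl⟩
  have hKc : IsCompact K := by rw [hK]; exact isCompact_Icc.reProdIm isCompact_Icc
  have hKmem : ∀ s : ℂ, s ∈ K ↔ (-1 / 2 ≤ s.re ∧ s.re ≤ c') ∧ (Y0 ≤ s.im ∧ s.im ≤ Y1) := by
    intro s; rw [hK, mem_reProdIm, mem_Icc, mem_Icc]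
  have hKΩ : K ⊆ Ω := by
    intro s hs
    obtain ⟨⟨h1, h2⟩, h3, h4⟩ := (hKmem s).1 hs
    exact (hmem s).2 ⟨by linarith, by linarith, by linarith, by linarith⟩
  have hz : ∀ z : ℂ, z = (z.re : ℂ) + (z.im : ℂ) * I := fun z => (re_add_im z).symm
  -- no exit
  have hNE : ∀ l : ℝ, 0 < l → l < Λ → closure (Cmp Ω F ρ l) ⊆ Ω →
      Bornology.IsBounded (Cmp Ω F ρ l) → Cmp Ω F ρ l ⊆ K := by
    intro l hl hlΛ hcl hbd
    have hρC : ρ ∈ Cmp Ω F ρ l := mem_cmp hρΩ hρ0 hl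
    -- the barriers
    have hbar : ∀ Y : ℝ, Y0 ≤ Y → Y ≤ Y1 →
        (∀ x y : ℝ, -1 < x → x < y → y < δ → ‖F (y + Y * I)‖ < ‖F (x + Y * I)‖) →
        ∀ q ∈ Cmp Ω F ρ l, q.im ≠ Y := by
      intro Y hY0 hY1 hB q hq hqY
      have hqΩ := (hmem q).1 (cmp_sub l hq).1
      have hsub : {z : ℂ | q.re ≤ z.re ∧ z.re < δ ∧ z.im = q.im} ⊆ Low Ω F l := by
        rintro z ⟨h1, h2, h3⟩
        refine ⟨(hmem z).2 ⟨by linarith, h2, by rw [h3, hqY]; linarith, by rw [h3, hqY]; linarith⟩, ?_⟩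
        have h4 : ‖F z‖ ≤ ‖F q‖ := by
          rcases h1.eq_or_lt with h | h
          · have : z = q := Complex.ext h.symm h3
            rw [this]
          · have h5 := (hB q.re z.re hqΩ.1 h h2).le
            rw [hz z, hz q, h3, hqY]
            exact h5
        exact h4.trans_lt (cmp_sub l hq).2
      have hS : {z : ℂ | q.re ≤ z.re ∧ z.re < δ ∧ z.im = q.im} ⊆ Cmp Ω F ρ l :=
        cmp_max (seg_pre q δ) hsub ⟨q, ⟨le_rfl, hqΩ.2.1, rfl⟩, hq⟩
      have h6 := hcl (closure_mono hS (seg_closure q δ hqΩ.2.1))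
      have h7 := ((hmem _).1 h6).2.1
      simp at h7
    have him : ∀ s ∈ Cmp Ω F ρ l, Y0 < s.im ∧ s.im < Y1 := by
      intro s hs
      constructor
      · by_contra hcon
        push Not at hcon
        obtain ⟨q, hq1, hq2⟩ := (cmp_pre l).intermediate_value hs hρC continuous_im.continuousOn
          ⟨hcon, hρY.le⟩
        exact hbar Y0 le_rfl (by linarith) hB0 q hq1 hq2
      · by_contra hcon
        push Not at hcon
        obtain ⟨q, hq1, hq2⟩ := (cmp_pre l).intermediate_value hρC hs continuous_im.continuousOn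
          ⟨hρY'.le, hcon⟩
        exact hbar Y1 (by linarith) le_rfl hB1 q hq1 hq2
    intro s hs
    have hsΩ := (hmem s).1 (cmp_sub l hs).1
    have hsi := him s hs
    refine (hKmem s).2 ⟨⟨?_, ?_⟩, hsi.1.le, hsi.2.le⟩
    · by_contra hcon
      push Not at hcon
      have := hL s hsΩ.1 hcon.le hsi.1.le hsi.2.le
      linarith [(cmp_sub l hs).2]
    · by_contra hcon
      push Not at hcon
      -- the rightmost point of the closure
      have hcc : IsCompact (closure (Cmp Ω F ρ l)) := hbd.isCompact_closure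
      obtain ⟨q, hq, hqm⟩ := hcc.exists_isMaxOn ⟨ρ, subset_closure hρC⟩ continuous_re.continuousOn
      have hqn : q ∉ Cmp Ω F ρ l := by
        intro hqC
        have ho := (cmp_open (ρ := ρ) hΩo hF l).mem_nhds hqC
        obtain ⟨ε, hε, hball⟩ := Metric.mem_nhds_iff.1 ho
        have h1 : q + ((ε / 2 : ℝ) : ℂ) ∈ Cmp Ω F ρ l := by
          apply hball
          rw [mem_ball, dist_eq_norm, add_sub_cancel_left, norm_real, Real.norm_of_nonneg (by linarith)]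
          linarith
        have h2 : (q + ((ε / 2 : ℝ) : ℂ)).re ≤ q.re := hqm (subset_closure h1)
        rw [add_re, ofReal_re] at h2
        linarith
      have hqF : ‖F q‖ = l := bdry hΩo hF (hcl hq) hq hqn
      have hqr : s.re ≤ q.re := hqm (subset_closure hs)
      have hqΩ := (hmem q).1 (hcl hq)
      have hqi : Y0 ≤ q.im ∧ q.im ≤ Y1 := by
        have hsub : closure (Cmp Ω F ρ l) ⊆ {z : ℂ | Y0 ≤ z.im ∧ z.im ≤ Y1} := by
          apply closure_minimal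
          · intro z hz; exact ⟨(him z hz).1.le, (him z hz).2.le⟩
          · exact (isClosed_le continuous_const continuous_im).inter
              (isClosed_le continuous_im continuous_const)
        exact hsub hq
      obtain ⟨p, hp1, hp2⟩ := (cmp_pre l).intermediate_value hρC hs continuous_re.continuousOn
        (show c ∈ Icc ρ.re s.re from ⟨by linarith, by linarith⟩)
      have hpi := him p hp1
      obtain ⟨r, hr1, hr2, hr3⟩ := hM q p (by linarith) hqΩ.2.1 hqi.1 hqi.2 hp2 hpi.1.le hpi.2.le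
      have hcont : ContinuousOn (fun z : ℂ => ‖z - p‖) (Cmp Ω F ρ l) := by fun_prop
      have hρp : r ≤ ‖ρ - p‖ := by
        have h1 := abs_re_le_norm (ρ - p)
        rw [sub_re, hp2] at h1
        have h2 := neg_abs_le (ρ.re - c)
        linarith
      obtain ⟨z, hz1, hz2⟩ := (cmp_pre l).intermediate_value hp1 hρC hcont
        (show r ∈ Icc ‖p - p‖ ‖ρ - p‖ from ⟨by rw [sub_self, norm_zero]; exact hr1.le, hρp⟩)
      have h3 := hr3 z hz2
      have h4 := (cmp_sub l hz1).2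
      rw [hqF] at h3
      linarith
  obtain ⟨l, hl0, hlΛ, hl⟩ := hT
  have hmain := cmp_main hΩo hF hF' hKc hKΩ hρΩ hρ0 hNE l hl0 hlΛ
  have hsub : {z : ℂ | ρ.re ≤ z.re ∧ z.re < δ ∧ z.im = ρ.im} ⊆ Low Ω F l := by
    rintro z ⟨h1, h2, h3⟩
    refine ⟨(hmem z).2 ⟨by linarith, h2, by linarith, by linarith⟩, ?_⟩
    have h5 := hl z.re h1 h2
    rw [hz z, h3]
    exact h5
  have hS := cmp_max (seg_pre ρ δ) hsub ⟨ρ, ⟨le_rfl, by linarith, rfl⟩, mem_cmp hρΩ hρ0 hl0⟩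
  have h8 : ((((c' + δ) / 2 : ℝ) : ℂ) + ρ.im * I) ∈ Cmp Ω F ρ l := by
    apply hS
    simp only [mem_setOf_eq, add_re, ofReal_re, mul_re, I_re, mul_zero, ofReal_im, I_im, mul_one,
      sub_self, add_zero, add_im, mul_im, zero_add]
    exact ⟨by linarith, by linarith, trivial⟩
  have h9 := ((hKmem _).1 (hmain h8)).1.2
  simp at h9
  linarith

end Q240.QS
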