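import Pool.Agent.Q240.QS.Bar
import Pool.Agent.Q240.QS.Force
import Pool.Agent.Q240.QS.MinMod

/-!
# Size of the derivatives of zeta near the line `Re s = 0`
-/

set_option autoImplicit false

namespace Q240.QS

open Complex Filter Topology Metric Set

theorem an_it (k : ℕ) {s : ℂ} (hs : s ≠ 1) : AnalyticAt ℂ (iteratedDeriv k riemannZeta) s := by
  have hana : AnalyticAt ℂ riemannZeta s := by
    have ho : IsOpen ({1}ᶜ : Set ℂ) := isOpen_compl_singleton
    exact DifferentiableOn.analyticAt (s := {1}ᶜ)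
      (fun z hz => (differentiableAt_riemannZeta hz).differentiableWithinAt) (ho.mem_nhds hs)
  rw [iteratedDeriv_eq_iterate]
  exact hana.iterated_deriv k

theorem left_ratio (k : ℕ) (δ ε : ℝ) (hδ : 0 < δ) (hε : 0 < ε) : ∃ T0 : ℝ, 3 ≤ T0 ∧ ∀ s : ℂ,
    T0 ≤ s.im → -3 / 2 ≤ s.re → s.re ≤ -δ → riemannZeta s ≠ 0 ∧
    ‖iteratedDeriv k riemannZeta s - (-((Real.log s.im : ℝ) : ℂ)) ^ k * riemannZeta s‖ ≤
      ε * Real.log s.im ^ k * ‖riemannZeta s‖ := by
  obtain ⟨ε', T1, he, hT1, hr⟩ := ratio k ε hε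
  obtain ⟨T2, hT2, hg⟩ := gd_right (min ε' (δ / 2)) (lt_min he (by positivity))
  obtain ⟨T3, hT3⟩ : ∃ T3 : ℝ, ∀ t : ℝ, T3 ≤ t → 2 / δ ≤ Real.log t :=
    Filter.eventually_atTop.1 (Real.tendsto_log_atTop.eventually_ge_atTop _)
  refine ⟨max T1 (max T2 T3), hT1.trans (le_max_left _ _), fun s hs h1 h2 => ?_⟩
  have ha : T1 ≤ s.im := (le_max_left _ _).trans hs
  have hb : T2 ≤ s.im := (le_max_left _ _).trans ((le_max_right _ _).trans hs)
  have hc : T3 ≤ s.im := (le_max_right _ _).trans ((le_max_right _ _).trans hs)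
  have hG : Gd s.im (1 + δ / 2) ε' :=
    (hg s.im hb).1.mono (by linarith [min_le_right ε' (δ / 2)]) (min_le_left _ _) (by linarith)
  have hl := hT3 s.im hc
  have hl0 : 0 < Real.log s.im := lt_of_lt_of_le (by positivity) hl
  have hinv : 1 / Real.log s.im ≤ δ / 2 := by
    rw [div_le_div_iff₀ hl0 (by norm_num)]
    rw [div_le_iff₀ hδ] at hl
    linarith
  exact hr s.im (1 + δ / 2) ha hG s rfl h1 (by linarith) (by linarith)

theorem ev_exp (C : ℝ) {b : ℝ} (hb : 0 < b) (k : ℕ) : ∃ T0 : ℝ, 3 ≤ T0 ∧ ∀ t : ℝ, T0 ≤ t →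
    C * Real.log t ^ k ≤ Real.exp (b * Real.log t) := by
  have h := (isLittleO_pow_exp_pos_mul_atTop k hb).bound
    (show (0 : ℝ) < 1 / (|C| + 1) by positivity)
  have h2 := Real.tendsto_log_atTop.eventually h
  obtain ⟨T1, hT1⟩ := Filter.eventually_atTop.1 h2
  refine ⟨max 3 T1, le_max_left _ _, fun t ht => ?_⟩
  have h3 := hT1 t ((le_max_right _ _).trans ht)
  have ht3 : 3 ≤ t := (le_max_left _ _).trans ht
  have hl : 0 ≤ Real.log t := Real.log_nonneg (by linarith)
  rw [Real.norm_of_nonneg (by positivity), Real.norm_of_nonneg (Real.exp_pos _).le] at h3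
  have h4 : (|C| + 1) * Real.log t ^ k ≤ Real.exp (b * Real.log t) := by
    calc (|C| + 1) * Real.log t ^ k ≤ (|C| + 1) * (1 / (|C| + 1) * Real.exp (b * Real.log t)) := by
          gcongr
      _ = _ := by field_simp
  refine le_trans ?_ h4
  have h5 : C ≤ |C| + 1 := by linarith [le_abs_self C]
  gcongr

theorem left_lower (k : ℕ) (δ ε : ℝ) (hδ : 0 < δ) (hε : 0 < ε) : ∃ T0 : ℝ, 3 ≤ T0 ∧ ∀ s : ℂ,
    T0 ≤ s.im → -3 / 2 ≤ s.re → s.re ≤ -δ →
    Real.exp (Real.log s.im * (1 / 2 - s.re - ε)) ≤ ‖iteratedDeriv k riemannZeta s‖ := by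
  obtain ⟨T1, hT1, hr⟩ := left_ratio k δ (1 / 2) hδ (by norm_num)
  obtain ⟨K, T2, hK, hT2, hfe⟩ := fe
  obtain ⟨T3, hT3, hg⟩ := gd_right (min (ε / 2) δ) (lt_min (by positivity) hδ)
  obtain ⟨T4, hT4, hx⟩ := ev_exp (2 * Real.exp K) (half_pos hε) 0
  refine ⟨max (max T1 T2) (max T3 T4), hT1.trans ((le_max_left _ _).trans (le_max_left _ _)),
    fun s hs h1 h2 => ?_⟩
  have ha : T1 ≤ s.im := (le_max_left _ _).trans ((le_max_left _ _).trans hs)
  have hb : T2 ≤ s.im := (le_max_right _ _).trans ((le_max_left _ _).trans hs)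
  have hc : T3 ≤ s.im := (le_max_left _ _).trans ((le_max_right _ _).trans hs)
  have hd : T4 ≤ s.im := (le_max_right _ _).trans ((le_max_right _ _).trans hs)
  obtain ⟨-, r2⟩ := hr s ha h1 h2
  obtain ⟨-, f2, -⟩ := hfe s hb (by rw [abs_le]; constructor <;> linarith)
  have hvre : (1 - (starRingEnd ℂ) s).re = 1 - s.re := by simp
  have hvim : (1 - (starRingEnd ℂ) s).im = s.im := by simp
  obtain ⟨g1, -⟩ := (hg s.im hc).2 (1 - (starRingEnd ℂ) s) (by
    rw [hvre]; linarith [min_le_right (ε / 2) δ]) (by rw [hvim]; simp)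
  have hx' := hx s.im hd
  have hs3 : 3 ≤ s.im := hT1.trans ha
  have hs0 : 0 < s.im := by linarith
  have hl1 : 1 ≤ Real.log s.im := by
    rw [Real.le_log_iff_exp_le hs0]
    linarith [Real.exp_one_lt_d9]
  rw [Real.rpow_def_of_pos hs0] at g1 f2
  rw [pow_zero, mul_one] at hx'
  set l := Real.log s.im with hl
  have hlk : 1 ≤ l ^ k := one_le_pow₀ hl1
  -- lower bound for the norm
  have h3 : (1 / 2) * l ^ k * ‖riemannZeta s‖ ≤ ‖iteratedDeriv k riemannZeta s‖ := by
    have h4 : ‖(-((l : ℝ) : ℂ)) ^ k * riemannZeta s‖ = l ^ k * ‖riemannZeta s‖ := by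
      rw [norm_mul, norm_pow, norm_neg, norm_real, Real.norm_of_nonneg (by linarith)]
    have h5 := norm_sub_norm_le ((-((l : ℝ) : ℂ)) ^ k * riemannZeta s) (iteratedDeriv k riemannZeta s)
    rw [norm_sub_rev, h4] at h5
    linarith
  have h4 : Real.exp (-(ε / 2) * l) ≤ ‖riemannZeta (1 - (starRingEnd ℂ) s)‖ := by
    refine le_trans ?_ g1
    apply Real.exp_le_exp.2
    nlinarith [min_le_left (ε / 2) δ]
  have h5 : Real.exp (l * (1 / 2 - s.re)) * Real.exp (-(ε / 2) * l) ≤ Real.exp K * ‖riemannZeta s‖ := by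
    refine le_trans ?_ f2
    gcongr
  have h6 : Real.exp (l * (1 / 2 - s.re - ε)) * Real.exp (ε / 2 * l) =
      Real.exp (l * (1 / 2 - s.re)) * Real.exp (-(ε / 2) * l) := by
    rw [← Real.exp_add, ← Real.exp_add]; congr 1; ring
  have h7 : Real.exp (l * (1 / 2 - s.re - ε)) * (2 * Real.exp K) ≤ Real.exp K * ‖riemannZeta s‖ := by
    refine le_trans ?_ h5
    rw [← h6]
    gcongr
  have h8 : 2 * Real.exp (l * (1 / 2 - s.re - ε)) ≤ ‖riemannZeta s‖ := by
    have hK0 := Real.exp_pos K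
    nlinarith
  nlinarith [norm_nonneg (riemannZeta s)]

theorem upper (k : ℕ) (ε1 : ℝ) (h1 : 0 < ε1) (h1' : ε1 ≤ 1) : ∃ δ0 : ℝ, 0 < δ0 ∧ ∀ δ : ℝ, 0 < δ → δ ≤ δ0 →
    ∃ T0 : ℝ, 3 ≤ T0 ∧ ∀ T : ℝ, T0 ≤ T → ∀ s : ℂ, -1 / 2 ≤ s.re → s.re ≤ 16 * δ → T / 4 ≤ s.im →
    s.im ≤ 4 * T → ‖iteratedDeriv k riemannZeta s‖ ≤ Real.exp (Real.log T * (1 / 2 - s.re + ε1 * δ)) := by
  obtain ⟨e0, he0, he1, hg⟩ := growth (ε1 / 80) (by positivity)
  obtain ⟨K, T1, hK, hT1, hfe⟩ := fe
  refine ⟨e0 / 20, by positivity, fun δ hδ hδ0 => ?_⟩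
  obtain ⟨C, hC, hg⟩ := hg (20 * δ) (by positivity) (by linarith)
  obtain ⟨T2, hT2, hx⟩ := ev_exp ((k.factorial : ℝ) * (Real.exp (K + 10) * C))
    (show 0 < 3 / 4 * (ε1 * δ) by positivity) k
  obtain ⟨T3, hT3⟩ : ∃ T3 : ℝ, ∀ t : ℝ, T3 ≤ t → 1 / δ + 4 ≤ Real.log t :=
    Filter.eventually_atTop.1 (Real.tendsto_log_atTop.eventually_ge_atTop _)
  refine ⟨max (max (5 * T1) 100) (max T2 T3), le_trans (by norm_num)
    ((le_max_right _ _).trans (le_max_left _ _)), fun T hT s hs1 hs2 hs3 hs4 => ?_⟩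
  have ha : 5 * T1 ≤ T := (le_max_left _ _).trans ((le_max_left _ _).trans hT)
  have ha' : 100 ≤ T := (le_max_right _ _).trans ((le_max_left _ _).trans hT)
  have hb : T2 ≤ T := (le_max_left _ _).trans ((le_max_right _ _).trans hT)
  have hc : T3 ≤ T := (le_max_right _ _).trans ((le_max_right _ _).trans hT)
  have hxT := hx T hb
  have hlT := hT3 T hc
  set l := Real.log T with hl
  have hinvδ : 0 < 1 / δ := by positivity
  have hl4 : 4 ≤ l := by linarith
  have hl0 : 0 < l := by linarith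
  have hinv : 1 / l ≤ δ := by
    rw [div_le_iff₀ hl0]
    have : 1 / δ ≤ l := by linarith
    rwa [div_le_iff₀ hδ, mul_comm] at this
  have hinv4 : 1 / l ≤ 1 / 4 := one_div_le_one_div_of_le (by norm_num) hl4
  have hinv0 : 0 < 1 / l := by positivity
  have hball : ∀ w ∈ closedBall s (1 / l), DifferentiableAt ℂ riemannZeta w ∧
      ‖riemannZeta w‖ ≤ Real.exp (K + 10) * C * Real.exp (l * (1 / 2 - s.re + ε1 / 4 * δ)) := by
    intro w hw
    rw [mem_closedBall, dist_eq_norm] at hw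
    have h3 := abs_le.1 ((abs_re_le_norm (w - s)).trans hw)
    have h4 := abs_le.1 ((abs_im_le_norm (w - s)).trans hw)
    rw [sub_re] at h3
    rw [sub_im] at h4
    have hwi : T / 5 ≤ w.im := by linarith
    have hwi' : w.im ≤ 5 * T := by linarith
    have hw0 : 0 < w.im := by linarith
    have hw1 : w ≠ 1 := by
      intro h
      rw [h, one_im] at hw0
      exact lt_irrefl _ hw0
    refine ⟨differentiableAt_riemannZeta hw1, ?_⟩
    obtain ⟨f1, -, -⟩ := hfe w (by linarith) (by rw [abs_le]; constructor <;> linarith)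
    have hv : (1 - (starRingEnd ℂ) w) = ((1 - w.re : ℝ) : ℂ) + (w.im : ℂ) * I := by
      apply Complex.ext <;> simp
    have hg1 := hg (1 - w.re) w.im (by linarith) (by linarith) (by linarith)
    rw [← hv] at hg1
    rw [Real.rpow_def_of_pos hw0] at f1 hg1
    have hlw : |Real.log w.im - l| ≤ 2 := by
      have hlog5 : Real.log 5 ≤ 2 := by
        rw [Real.log_le_iff_le_exp (by norm_num)]
        have := Real.add_one_le_exp (1 : ℝ)
        have h2 : Real.exp 2 = Real.exp 1 * Real.exp 1 := by rw [← Real.exp_add]; norm_num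
        rw [h2]
        have := Real.exp_one_gt_d9
        nlinarith
      have e1 : Real.log w.im ≤ Real.log 5 + l := by
        rw [hl, ← Real.log_mul (by norm_num) (by linarith)]
        exact Real.log_le_log hw0 hwi'
      have e2 : l - Real.log 5 ≤ Real.log w.im := by
        rw [hl, ← Real.log_div (by linarith) (by norm_num)]
        exact Real.log_le_log (by linarith) hwi
      rw [abs_le]; constructor <;> linarith
    have h5 : ‖riemannZeta w‖ ≤ Real.exp K * C * Real.exp (Real.log w.im * (1 / 2 - w.re + ε1 / 4 * δ)) := by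
      calc ‖riemannZeta w‖ ≤ Real.exp K * Real.exp (Real.log w.im * (1 / 2 - w.re)) *
            ‖riemannZeta (1 - (starRingEnd ℂ) w)‖ := f1
        _ ≤ Real.exp K * Real.exp (Real.log w.im * (1 / 2 - w.re)) *
            (C * Real.exp (Real.log w.im * (ε1 / 80 * (20 * δ)))) := by gcongr
        _ = Real.exp K * C * Real.exp (Real.log w.im * (1 / 2 - w.re + ε1 / 4 * δ)) := by
            rw [show Real.log w.im * (1 / 2 - w.re + ε1 / 4 * δ) =
              Real.log w.im * (1 / 2 - w.re) + Real.log w.im * (ε1 / 80 * (20 * δ)) by ring,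
              Real.exp_add]
            ring
    refine h5.trans ?_
    have h6 : Real.log w.im * (1 / 2 - w.re + ε1 / 4 * δ) ≤ 10 + l * (1 / 2 - s.re + ε1 / 4 * δ) := by
      have e1 : (Real.log w.im - l) * (1 / 2 - w.re + ε1 / 4 * δ) ≤ 2 * 3 := by
        refine (le_abs_self _).trans ?_
        rw [abs_mul]
        have e3 : 0 < ε1 / 4 * δ := by positivity
        have e4 : ε1 / 4 * δ ≤ 1 := by nlinarith
        have e2 : |1 / 2 - w.re + ε1 / 4 * δ| ≤ 3 := by
          rw [abs_le]; constructor <;> linarith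
        gcongr
      have e2 : l * (s.re - w.re) ≤ 1 := by
        calc l * (s.re - w.re) ≤ l * (1 / l) := by gcongr; linarith
          _ = 1 := by field_simp
      nlinarith
    calc Real.exp K * C * Real.exp (Real.log w.im * (1 / 2 - w.re + ε1 / 4 * δ)) ≤
        Real.exp K * C * Real.exp (10 + l * (1 / 2 - s.re + ε1 / 4 * δ)) := by gcongr
      _ = _ := by rw [Real.exp_add, Real.exp_add K]; ring
  have hD : DiffContOnCl ℂ riemannZeta (ball s (1 / l)) := by
    apply DifferentiableOn.diffContOnCl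
    intro w hw
    have : w ∈ closedBall s (1 / l) := closure_ball_subset_closedBall hw
    exact (hball w this).1.differentiableWithinAt
  have hCau := norm_iteratedDeriv_le_of_forall_mem_sphere_norm_le k hinv0 hD
    (fun z hz => (hball z (sphere_subset_closedBall hz)).2)
  refine hCau.trans ?_
  have h7 : (k.factorial : ℝ) * (Real.exp (K + 10) * C * Real.exp (l * (1 / 2 - s.re + ε1 / 4 * δ))) /
      (1 / l) ^ k = ((k.factorial : ℝ) * (Real.exp (K + 10) * C) * l ^ k) *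
        Real.exp (l * (1 / 2 - s.re + ε1 / 4 * δ)) := by
    rw [div_pow, one_pow, div_div_eq_mul_div, div_one]
    ring
  rw [h7]
  calc ((k.factorial : ℝ) * (Real.exp (K + 10) * C) * l ^ k) *
        Real.exp (l * (1 / 2 - s.re + ε1 / 4 * δ)) ≤ Real.exp (3 / 4 * (ε1 * δ) * l) *
        Real.exp (l * (1 / 2 - s.re + ε1 / 4 * δ)) := by gcongr
    _ = _ := by rw [← Real.exp_add]; congr 1; ring

/-- the norm of a derivative of zeta decreases along a barrier -/
theorem barrier_anti (k : ℕ) : ∃ T0 : ℝ, 100 ≤ T0 ∧ ∀ T : ℝ, T0 ≤ T → ∃ Y : ℝ, T / 2 ≤ Y ∧ Y ≤ T - 1 ∧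
    ∀ x y : ℝ, -1 < x → x < y → y < 1 / 30 →
      ‖iteratedDeriv k riemannZeta (y + Y * I)‖ < ‖iteratedDeriv k riemannZeta (x + Y * I)‖ := by
  obtain ⟨ε1, T1, he1, hT1, hr1⟩ := ratio k (1 / 4) (by norm_num)
  obtain ⟨ε2, T2, he2, hT2, hr2⟩ := ratio (k + 1) (1 / 4) (by norm_num)
  obtain ⟨T3, hT3, hb⟩ := barrier (min ε1 ε2) (lt_min he1 he2)
  obtain ⟨T4, hT4⟩ : ∃ T4 : ℝ, ∀ t : ℝ, T4 ≤ t → 100 ≤ Real.log t :=
    Filter.eventually_atTop.1 (Real.tendsto_log_atTop.eventually_ge_atTop _)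
  refine ⟨max T3 (2 * max (max T1 T2) T4), hT3.trans (le_max_left _ _), fun T hT => ?_⟩
  obtain ⟨Y, hY1, hY2, hG⟩ := hb T ((le_max_left _ _).trans hT)
  refine ⟨Y, hY1, hY2, ?_⟩
  have hTb : 2 * max (max T1 T2) T4 ≤ T := (le_max_right _ _).trans hT
  have hYa : T1 ≤ Y := by
    have h1 := le_max_left T1 T2
    have h2 := le_max_left (max T1 T2) T4
    linarith
  have hYb : T2 ≤ Y := by
    have h1 := le_max_right T1 T2
    have h2 := le_max_left (max T1 T2) T4
    linarith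
  have hYc : T4 ≤ Y := by
    have h2 := le_max_right (max T1 T2) T4
    linarith
  have hY3 : 3 ≤ Y := hT1.trans hYa
  have hl := hT4 Y hYc
  have hl0 : 0 < Real.log Y := by linarith
  have hinv : 1 / Real.log Y ≤ 1 / 100 := one_div_le_one_div_of_le (by norm_num) hl
  set l := Real.log Y with hldef
  set F := iteratedDeriv k riemannZeta with hF
  have hG1 : Gd Y (19 / 20) ε1 := hG.mono le_rfl (min_le_left _ _) (by linarith)
  have hG2 : Gd Y (19 / 20) ε2 := hG.mono le_rfl (min_le_right _ _) (by linarith)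
  have key : ∀ x : ℝ, x ∈ Ioo (-1 : ℝ) (1 / 30) →
      HasDerivAt (fun x : ℝ => ‖F (x + Y * I)‖ ^ 2)
        (2 * ((starRingEnd ℂ) (F (x + Y * I)) * deriv F (x + Y * I)).re) x ∧
      ((starRingEnd ℂ) (F (x + Y * I)) * deriv F (x + Y * I)).re < 0 := by
    intro x hx
    obtain ⟨s, hs⟩ : ∃ s : ℂ, s = (x : ℂ) + (Y : ℂ) * I := ⟨_, rfl⟩
    have hsre : s.re = x := by rw [hs]; simp
    have hsim : s.im = Y := by rw [hs]; simp
    rw [← hs]
    obtain ⟨hz, q1⟩ := hr1 Y (19 / 20) hYa hG1 s hsim (by rw [hsre]; linarith [hx.1])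
      (by rw [hsre]; linarith [hx.2]) (by rw [hsre]; linarith [hx.2])
    obtain ⟨-, q2⟩ := hr2 Y (19 / 20) hYb hG2 s hsim (by rw [hsre]; linarith [hx.1])
      (by rw [hsre]; linarith [hx.2]) (by rw [hsre]; linarith [hx.2])
    rw [← hldef] at q1
    rw [← hldef, iteratedDeriv_succ, ← hF] at q2
    have hs1 : s ≠ 1 := by
      intro h
      rw [h, one_im] at hsim
      linarith
    have hFd : HasDerivAt F (deriv F s) s := (an_it k hs1).differentiableAt.hasDerivAt
    constructor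
    · have h1 : HasDerivAt (fun x : ℝ => F (x + Y * I)) (deriv F s) x := by
        have h2 : HasDerivAt (fun x : ℂ => F (x + Y * I)) (deriv F s) (x : ℂ) := by
          have h3 : HasDerivAt (fun x : ℂ => x + Y * I) 1 (x : ℂ) := (hasDerivAt_id _).add_const _
          have h4 : HasDerivAt F (deriv F s) ((fun x : ℂ => x + Y * I) (x : ℂ)) := by
            change HasDerivAt F (deriv F s) ((x : ℂ) + Y * I)
            rw [← hs]; exact hFd
          have h5 := HasDerivAt.comp (x : ℂ) h4 h3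
          rw [mul_one] at h5
          exact h5
        exact h2.comp_ofReal
      have h3 := h1.norm_sq
      rw [← hs] at h3
      refine h3.congr_deriv ?_
      rw [Complex.inner, mul_comm (deriv F s)]
    · -- sign of the real part
      obtain ⟨z, hzd⟩ : ∃ z : ℂ, z = riemannZeta s := ⟨_, rfl⟩
      rw [← hzd] at q1 q2 hz
      obtain ⟨w, hw⟩ : ∃ w : ℂ, w = (-((l : ℝ) : ℂ)) ^ k * z := ⟨_, rfl⟩
      have hwn : ‖w‖ = l ^ k * ‖z‖ := by
        rw [hw, norm_mul, norm_pow, norm_neg, norm_real, Real.norm_of_nonneg hl0.le]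
      have hw0 : 0 < ‖w‖ := by rw [hwn]; have := norm_pos_iff.2 hz; positivity
      rw [← hw, mul_assoc, ← hwn] at q1
      have hw2 : (-((l : ℝ) : ℂ)) ^ (k + 1) * z = -((l : ℂ) * w) := by
        rw [hw]; ring
      rw [hw2, show (1 / 4 : ℝ) * l ^ (k + 1) * ‖z‖ = 1 / 4 * l * (l ^ k * ‖z‖) by ring, ← hwn] at q2
      obtain ⟨a, ha⟩ : ∃ a : ℂ, a = F s - w := ⟨_, rfl⟩
      obtain ⟨b, hb⟩ : ∃ b : ℂ, b = deriv F s - -((l : ℂ) * w) := ⟨_, rfl⟩
      rw [← ha] at q1
      rw [← hb] at q2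
      have hFa : F s = w + a := by rw [ha]; ring
      have hFb : deriv F s = -((l : ℂ) * w) + b := by rw [hb]; ring
      rw [hFa, hFb]
      have hexp : (starRingEnd ℂ) (w + a) * (-((l : ℂ) * w) + b) =
          -((l : ℂ) * ((starRingEnd ℂ) w * w)) + (starRingEnd ℂ) w * b -
          (l : ℂ) * ((starRingEnd ℂ) a * w) + (starRingEnd ℂ) a * b := by
        rw [map_add]; ring
      rw [hexp]
      have hww : (starRingEnd ℂ) w * w = ((‖w‖ ^ 2 : ℝ) : ℂ) := by
        rw [mul_comm, Complex.mul_conj, Complex.normSq_eq_norm_sq]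
      rw [hww, add_re, sub_re, add_re, neg_re, ← ofReal_mul, ofReal_re]
      have r1 : ((starRingEnd ℂ) w * b).re ≤ ‖w‖ * (1 / 4 * l * ‖w‖) := by
        refine (re_le_norm _).trans ?_
        rw [norm_mul, Complex.norm_conj]
        gcongr
      have r2 : -(((l : ℂ) * ((starRingEnd ℂ) a * w)).re) ≤ l * (1 / 4 * ‖w‖ * ‖w‖) := by
        refine (neg_le_abs _).trans ((abs_re_le_norm _).trans ?_)
        rw [norm_mul, norm_mul, Complex.norm_conj, norm_real, Real.norm_of_nonneg hl0.le]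
        gcongr
      have r3 : ((starRingEnd ℂ) a * b).re ≤ (1 / 4 * ‖w‖) * (1 / 4 * l * ‖w‖) := by
        refine (re_le_norm _).trans ?_
        rw [norm_mul, Complex.norm_conj]
        gcongr
      have hpos : 0 < l * ‖w‖ ^ 2 := by positivity
      nlinarith
  have hanti : StrictAntiOn (fun x : ℝ => ‖F (x + Y * I)‖ ^ 2) (Ioo (-1 : ℝ) (1 / 30)) := by
    apply strictAntiOn_of_deriv_neg (convex_Ioo _ _)
    · intro x hx
      exact (key x hx).1.continuousAt.continuousWithinAt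
    · intro x hx
      rw [interior_Ioo] at hx
      rw [(key x hx).1.deriv]
      linarith [(key x hx).2]
  intro x y hx hxy hy
  have h1 := hanti ⟨hx, by linarith⟩ ⟨by linarith, hy⟩ hxy
  exact lt_of_pow_lt_pow_left₀ 2 (norm_nonneg _) h1

end Q240.QS
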