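import Pool.Agent.H986R2.K4.HHb
import Pool.Agent.H24R2.JP.B1
import Pool.Agent.H24R2.JP.Zeta

/-!
# The functional equation of zeta in asymptotic form
-/

set_option autoImplicit false

namespace Q240.QS

open Complex Filter Topology Metric Set
open Pool.Agent.H24R2.JP (XX HH Om)
open Pool.Agent.H986R2.K4 (hh)

/-- the logarithmic derivative of `XX` (after helper471) -/
theorem logDeriv_XX' (z : ℂ) (hz : 0 < z.im) (hH : DifferentiableAt ℂ HH z) (hH0 : HH z ≠ 0)
    (hs : riemannZeta (1 / 2 + z) ≠ 0) :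
    XX z ≠ 0 ∧ logDeriv XX z = logDeriv HH z + logDeriv riemannZeta (1 / 2 + z) := by
  have hval := Pool.Agent.H24R2.JP.ZetaTask.part1 z hz
  have hne : XX z ≠ 0 := by
    rw [hval]
    exact mul_ne_zero hH0 hs
  refine ⟨hne, ?_⟩
  have hev : XX =ᶠ[𝓝 z] fun w => HH w * riemannZeta (1 / 2 + w) := by
    have ho : IsOpen {w : ℂ | 0 < w.im} := isOpen_lt continuous_const Complex.continuous_im
    filter_upwards [ho.mem_nhds hz] with w hw
    exact Pool.Agent.H24R2.JP.ZetaTask.part1 w hw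
  have hs1 : (1 / 2 + z : ℂ) ≠ 1 := by
    intro h
    have : (1 / 2 + z : ℂ).im = (1 : ℂ).im := by rw [h]
    simp at this
    linarith
  have hdz : DifferentiableAt ℂ (fun w => riemannZeta (1 / 2 + w)) z := by
    have h1 : DifferentiableAt ℂ riemannZeta (1 / 2 + z) := differentiableAt_riemannZeta hs1
    exact h1.comp z (by fun_prop)
  have e1 : logDeriv XX z = logDeriv (fun w => HH w * riemannZeta (1 / 2 + w)) z := by
    unfold logDeriv
    simp only [Pi.div_apply]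
    rw [hev.deriv_eq, hev.eq_of_nhds]
  rw [e1, logDeriv_mul z hH0 hs hH hdz]
  congr 1
  unfold logDeriv
  simp only [Pi.div_apply]
  rw [deriv_comp_const_add]

/-- reflection in the imaginary axis -/
theorem XX_refl (z : ℂ) : XX (-(starRingEnd ℂ) z) = (starRingEnd ℂ) (XX z) := by
  rw [Pool.Agent.H24R2.JP.B1h.XX_neg, Pool.Agent.H24R2.JP.B1h.XX_conj]

theorem deriv_XX_refl (z : ℂ) :
    deriv XX (-(starRingEnd ℂ) z) = -(starRingEnd ℂ) (deriv XX z) := by
  have hd := Pool.Agent.H24R2.JP.B1h.XX_diff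
  have h1 : HasDerivAt (fun w => XX (-w)) (-(deriv XX z)) (-z) := by
    have h2 : HasDerivAt XX (deriv XX z) (-(-z)) := by rw [neg_neg]; exact (hd z).hasDerivAt
    have := HasDerivAt.comp (-z) h2 (hasDerivAt_neg (-z))
    simpa [Function.comp_def] using this
  have h3 := h1.conj_conj
  have h5 : XX = fun w => ((⇑(starRingEnd ℂ) ∘ (fun w => XX (-w)) ∘ ⇑(starRingEnd ℂ)) w) := by
    funext w
    simp only [Function.comp]
    rw [← XX_refl, map_neg, neg_neg, Complex.conj_conj]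
  have h6 : (starRingEnd ℂ) (-z) = -((starRingEnd ℂ) z) := by simp
  rw [h6] at h3
  have h7 : HasDerivAt XX ((starRingEnd ℂ) (-(deriv XX z))) (-((starRingEnd ℂ) z)) := by
    have h8 : HasDerivAt (fun w => ((⇑(starRingEnd ℂ) ∘ (fun w => XX (-w)) ∘ ⇑(starRingEnd ℂ)) w))
      ((starRingEnd ℂ) (-(deriv XX z))) (-((starRingEnd ℂ) z)) := h3
    rwa [← h5] at h8
  rw [h7.deriv, map_neg]

theorem fe : ∃ K T0 : ℝ, 1 ≤ K ∧ 2 ≤ T0 ∧ ∀ s : ℂ, T0 ≤ s.im → |s.re| ≤ 2 →
    ‖riemannZeta s‖ ≤ Real.exp K * s.im ^ (1 / 2 - s.re) * ‖riemannZeta (1 - (starRingEnd ℂ) s)‖ ∧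
    s.im ^ (1 / 2 - s.re) * ‖riemannZeta (1 - (starRingEnd ℂ) s)‖ ≤ Real.exp K * ‖riemannZeta s‖ ∧
    (riemannZeta (1 - (starRingEnd ℂ) s) ≠ 0 → ‖logDeriv riemannZeta s + Real.log s.im +
      (starRingEnd ℂ) (logDeriv riemannZeta (1 - (starRingEnd ℂ) s))‖ ≤ K) := by
  obtain ⟨K, hK, hb⟩ := hh
  obtain ⟨T0, hT0, hb⟩ := hb 3 (by norm_num)
  refine ⟨6 * K, T0, by linarith, hT0, fun s hs hre => ?_⟩
  have hre' := abs_le.1 hre
  have ht : 0 < s.im := by linarith
  obtain ⟨t, htd⟩ : ∃ t : ℝ, t = s.im := ⟨_, rfl⟩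
  obtain ⟨u, hu⟩ : ∃ u : ℝ, u = s.re - 1 / 2 := ⟨_, rfl⟩
  have hun : ‖(u : ℂ)‖ ≤ 3 := by
    rw [norm_real, Real.norm_eq_abs, abs_le]; constructor <;> linarith
  have hun' : ‖((-u : ℝ) : ℂ)‖ ≤ 3 := by
    rw [norm_real, Real.norm_eq_abs, abs_le]; constructor <;> linarith
  obtain ⟨a1, a2, a3, a4, a5⟩ := hb t (u : ℂ) (by rw [htd]; exact hs) hun
  obtain ⟨b1, b2, b3, b4, b5⟩ := hb t ((-u : ℝ) : ℂ) (by rw [htd]; exact hs) hun'
  obtain ⟨z, hz⟩ : ∃ z : ℂ, z = I * t + (u : ℂ) := ⟨_, rfl⟩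
  obtain ⟨z', hz'⟩ : ∃ z' : ℂ, z' = I * t + ((-u : ℝ) : ℂ) := ⟨_, rfl⟩
  rw [← hz] at a1 a2 a3 a4 a5
  rw [← hz'] at b1 b2 b3 b4 b5
  have hzs : 1 / 2 + z = s := by
    rw [hz, hu, htd]
    apply Complex.ext <;> simp
  have hzs' : 1 / 2 + z' = 1 - (starRingEnd ℂ) s := by
    rw [hz', hu, htd]
    apply Complex.ext <;> simp <;> ring
  have hzz' : z' = -(starRingEnd ℂ) z := by
    rw [hz', hz]
    apply Complex.ext <;> simp
  have hzi : 0 < z.im := by rw [hz]; simp; rw [htd]; exact ht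
  have hzi' : 0 < z'.im := by rw [hz']; simp; rw [htd]; exact ht
  have e1 := Pool.Agent.H24R2.JP.ZetaTask.part1 z hzi
  have e2 := Pool.Agent.H24R2.JP.ZetaTask.part1 z' hzi'
  rw [hzs] at e1
  rw [hzs'] at e2
  have e3 : XX z' = (starRingEnd ℂ) (XX z) := by rw [hzz', XX_refl]
  have hnorm : ‖HH z‖ * ‖riemannZeta s‖ = ‖HH z'‖ * ‖riemannZeta (1 - (starRingEnd ℂ) s)‖ := by
    rw [← norm_mul, ← norm_mul, ← e1, ← e2, e3, Complex.norm_conj]
  have hHpos : 0 < ‖HH z‖ := norm_pos_iff.2 a2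
  have hHpos' : 0 < ‖HH z'‖ := norm_pos_iff.2 b2
  set c : ℝ := ‖HH (I * t)‖ with hc
  have hc0 : 0 ≤ c := norm_nonneg _
  set Z := ‖riemannZeta s‖
  set Z' := ‖riemannZeta (1 - (starRingEnd ℂ) s)‖
  have hZ : 0 ≤ Z := norm_nonneg _
  have hZ' : 0 ≤ Z' := norm_nonneg _
  have hcpos : 0 < c := by
    rcases hc0.eq_or_lt with h | h
    · rw [← h, mul_zero] at a5; linarith
    · exact h
  rw [ofReal_re] at a4 a5 b4 b5
  have hpow : s.im ^ (1 / 2 - s.re) = Real.exp (-(2 * (Om t * u))) := by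
    rw [Real.rpow_def_of_pos ht]
    congr 1
    unfold Om
    rw [hu, htd]; ring
  have hZb : Z ≤ Real.exp (6 * K) * s.im ^ (1 / 2 - s.re) * Z' := by
    have h1 : Real.exp (Om t * u - K * 3) * c * Z ≤ Real.exp (Om t * -u + K * 3) * c * Z' := by
      calc _ ≤ ‖HH z‖ * Z := mul_le_mul_of_nonneg_right a4 hZ
        _ = ‖HH z'‖ * Z' := hnorm
        _ ≤ _ := mul_le_mul_of_nonneg_right b5 hZ'
    have h2 : Real.exp (Om t * u - K * 3) * Z ≤ Real.exp (Om t * -u + K * 3) * Z' := by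
      have h3 : c * (Real.exp (Om t * u - K * 3) * Z) ≤ c * (Real.exp (Om t * -u + K * 3) * Z') := by
        calc _ = Real.exp (Om t * u - K * 3) * c * Z := by ring
          _ ≤ _ := h1
          _ = _ := by ring
      exact le_of_mul_le_mul_left h3 hcpos
    rw [hpow]
    have h4 : Real.exp (6 * K) * Real.exp (-(2 * (Om t * u))) * Z' =
        Real.exp (-(Om t * u - K * 3)) * (Real.exp (Om t * -u + K * 3) * Z') := by
      have e1 : Real.exp (6 * K) * Real.exp (-(2 * (Om t * u))) =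
          Real.exp (-(Om t * u - K * 3)) * Real.exp (Om t * -u + K * 3) := by
        rw [← Real.exp_add, ← Real.exp_add]
        congr 1; ring
      rw [e1]; ring
    rw [h4]
    calc Z = Real.exp (-(Om t * u - K * 3)) * (Real.exp (Om t * u - K * 3) * Z) := by
          rw [← mul_assoc, ← Real.exp_add, neg_add_cancel, Real.exp_zero, one_mul]
      _ ≤ _ := mul_le_mul_of_nonneg_left h2 (Real.exp_pos _).le
  have hZb' : s.im ^ (1 / 2 - s.re) * Z' ≤ Real.exp (6 * K) * Z := by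
    have h1 : Real.exp (Om t * -u - K * 3) * c * Z' ≤ Real.exp (Om t * u + K * 3) * c * Z := by
      calc _ ≤ ‖HH z'‖ * Z' := mul_le_mul_of_nonneg_right b4 hZ'
        _ = ‖HH z‖ * Z := hnorm.symm
        _ ≤ _ := mul_le_mul_of_nonneg_right a5 hZ
    have h2 : Real.exp (Om t * -u - K * 3) * Z' ≤ Real.exp (Om t * u + K * 3) * Z := by
      have h3 : c * (Real.exp (Om t * -u - K * 3) * Z') ≤ c * (Real.exp (Om t * u + K * 3) * Z) := by
        calc _ = Real.exp (Om t * -u - K * 3) * c * Z' := by ring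
          _ ≤ _ := h1
          _ = _ := by ring
      exact le_of_mul_le_mul_left h3 hcpos
    rw [hpow]
    calc Real.exp (-(2 * (Om t * u))) * Z' =
          Real.exp (-(Om t * u) + K * 3) * (Real.exp (Om t * -u - K * 3) * Z') := by
          have e1 : Real.exp (-(2 * (Om t * u))) =
              Real.exp (-(Om t * u) + K * 3) * Real.exp (Om t * -u - K * 3) := by
            rw [← Real.exp_add]
            congr 1; ring
          rw [e1]; ring
      _ ≤ Real.exp (-(Om t * u) + K * 3) * (Real.exp (Om t * u + K * 3) * Z) :=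
          mul_le_mul_of_nonneg_left h2 (Real.exp_pos _).le
      _ = Real.exp (6 * K) * Z := by
          have e1 : Real.exp (6 * K) =
              Real.exp (-(Om t * u) + K * 3) * Real.exp (Om t * u + K * 3) := by
            rw [← Real.exp_add]
            congr 1; ring
          rw [e1]; ring
  refine ⟨hZb, hZb', fun hne => ?_⟩
  have hne' : riemannZeta s ≠ 0 := by
    intro h
    have hZ0 : Z = 0 := by
      change ‖riemannZeta s‖ = 0
      rw [h, norm_zero]
    have : ‖HH z'‖ * Z' = 0 := by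
      rw [← hnorm, hZ0, mul_zero]
    rcases mul_eq_zero.1 this with h1 | h1
    · exact hHpos'.ne' h1
    · exact hne (norm_eq_zero.1 h1)
  obtain ⟨c1, c2⟩ := logDeriv_XX' z hzi a1 a2 (by rw [hzs]; exact hne')
  obtain ⟨c3, c4⟩ := logDeriv_XX' z' hzi' b1 b2 (by rw [hzs']; exact hne)
  rw [hzs] at c2
  rw [hzs'] at c4
  have c5 : logDeriv XX z' = -(starRingEnd ℂ) (logDeriv XX z) := by
    rw [logDeriv_apply, logDeriv_apply, e3, hzz', deriv_XX_refl, map_div₀, neg_div]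
  have c6 : logDeriv riemannZeta s + Real.log s.im +
      (starRingEnd ℂ) (logDeriv riemannZeta (1 - (starRingEnd ℂ) s)) =
      -(logDeriv HH z - (Om t : ℂ)) - (starRingEnd ℂ) (logDeriv HH z' - (Om t : ℂ)) := by
    have h1 : logDeriv riemannZeta s = logDeriv XX z - logDeriv HH z := by rw [c2]; ring
    have h2 : logDeriv riemannZeta (1 - (starRingEnd ℂ) s) = logDeriv XX z' - logDeriv HH z' := by
      rw [c4]; ring
    have h3 : ((Real.log s.im : ℝ) : ℂ) = (Om t : ℂ) + (Om t : ℂ) := by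
      unfold Om
      rw [htd]; push_cast; ring
    rw [h1, h2, h3, c5, map_sub, map_neg, Complex.conj_conj, map_sub, conj_ofReal]
    ring
  rw [c6]
  calc _ ≤ ‖-(logDeriv HH z - (Om t : ℂ))‖ + ‖(starRingEnd ℂ) (logDeriv HH z' - (Om t : ℂ))‖ :=
        norm_sub_le _ _
    _ ≤ K + K := by
        rw [norm_neg, Complex.norm_conj]
        exact add_le_add a3 b3
    _ ≤ 6 * K := by linarith

end Q240.QS
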