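import Pool.Agent.Q240.QS.Data
import Pool.Agent.Y957.VK.Fin1

/-!
# The logarithmic derivative of zeta near the line `Re s = 1`, and in zero free strips
-/

set_option autoImplicit false

namespace Q240.QS

open Complex Filter Topology Metric Set

/-- the logarithmic derivative at the centre of a disc -/
theorem ld_center {g : ℂ → ℂ} {c : ℂ} {R M : ℝ} (hR : 0 < R) (hM : 0 < M)
    (hd : DifferentiableOn ℂ g (ball c R)) (hne : ∀ z ∈ ball c R, g z ≠ 0)
    (hb : ∀ z ∈ ball c R, ‖g z‖ ≤ Real.exp M * ‖g c‖) : ‖logDeriv g c‖ ≤ 4 * M / R := by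
  obtain ⟨f, hfc, hfd, hfe⟩ := Pool.Agent.H296R2.LE.exists_log hR hd hne
  have hc : c ∈ ball c R := mem_ball_self hR
  have hgc : 0 < ‖g c‖ := norm_pos_iff.2 (hne c hc)
  have hre : ∀ z ∈ ball c R, (f z).re ≤ M := by
    intro z hz
    have h1 := hb z hz
    rw [hfe z hz, norm_mul, Complex.norm_exp, mul_comm] at h1
    exact Real.exp_le_exp.1 (le_of_mul_le_mul_right h1 hgc)
  have hfdo : DifferentiableOn ℂ f (ball c R) := fun z hz =>
    (hfd z hz).differentiableAt.differentiableWithinAt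
  have hsm : ∀ z ∈ closedBall c (R / 2), ‖f z‖ ≤ 2 * M := by
    intro z hz
    have h1 := Pool.Agent.H986R2.K4.SABAux.bc (f := f) (c := c) (r := R / 2) (R := R) hM hfdo hre hfc
      (by positivity) (by linarith) hz
    refine h1.trans (le_of_eq ?_)
    field_simp
    ring
  have hD : DiffContOnCl ℂ f (ball c (R / 2)) := by
    apply DifferentiableOn.diffContOnCl
    rw [closure_ball _ (by positivity)]
    exact hfdo.mono (closedBall_subset_ball (by linarith))
  have h2 := norm_deriv_le_of_forall_mem_sphere_norm_le (by positivity) hD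
    (fun z hz => hsm z (sphere_subset_closedBall hz))
  rw [(hfd c hc).deriv] at h2
  rw [logDeriv_apply]
  refine h2.trans (le_of_eq ?_)
  field_simp
  ring

theorem gd_one (ε : ℝ) (hε : 0 < ε) : ∃ T0 : ℝ, 3 ≤ T0 ∧ ∀ t : ℝ, T0 ≤ t → Gd t (1 - 1 / Real.log t) ε := by
  obtain ⟨d1, K1, t1, hd1, hd1', hK1, ht1, hz⟩ := Pool.Agent.Y957.VK.zeta_all
  obtain ⟨d2, K2, t2, hd2, hd2', hK2, ht2, hf⟩ := Pool.Agent.Y957.VK.zf_all
  obtain ⟨d, hd⟩ : ∃ d : ℝ, d = min d1 d2 := ⟨_, rfl⟩
  have hd0 : 0 < d := by rw [hd]; exact lt_min hd1 hd2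
  have hda : d ≤ d1 := by rw [hd]; exact min_le_left _ _
  have hdb : d ≤ d2 := by rw [hd]; exact min_le_right _ _
  obtain ⟨T3, hT3, hg⟩ := gd_right (min ε (1 / 4)) (lt_min hε (by norm_num))
  have hev : ∀ᶠ L : ℝ in atTop, 4 ≤ L ^ d ∧
      16 * (Real.log K1 + (1 + K2) * Real.log (2 * L)) ≤ ε * L ^ d := by
    have h1 : Tendsto (fun L : ℝ => L ^ d) atTop atTop := tendsto_rpow_atTop hd0
    have h2 := (isLittleO_log_rpow_atTop hd0).bound
      (show (0 : ℝ) < ε / (32 * (1 + K2)) by positivity)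
    have h3 := h1.eventually_ge_atTop
      (32 / ε * (Real.log K1 + (1 + K2) * Real.log 2))
    filter_upwards [h1.eventually_ge_atTop 4, h2, h3, eventually_ge_atTop 1] with L a1 a2 a3 a4
    refine ⟨a1, ?_⟩
    have hlL : 0 ≤ Real.log L := Real.log_nonneg a4
    rw [Real.norm_of_nonneg hlL, Real.norm_of_nonneg (by positivity)] at a2
    rw [Real.log_mul (by norm_num) (by positivity)]
    have e1 : 16 * ((1 + K2) * Real.log L) ≤ ε * L ^ d / 2 := by
      calc 16 * ((1 + K2) * Real.log L) ≤ 16 * ((1 + K2) * (ε / (32 * (1 + K2)) * L ^ d)) := by gcongr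
        _ = ε * L ^ d / 2 := by field_simp; ring
    have e2 : 16 * (Real.log K1 + (1 + K2) * Real.log 2) ≤ ε * L ^ d / 2 := by
      calc 16 * (Real.log K1 + (1 + K2) * Real.log 2) =
          ε / 2 * (32 / ε * (Real.log K1 + (1 + K2) * Real.log 2)) := by field_simp; ring
        _ ≤ ε / 2 * L ^ d := by gcongr
        _ = _ := by ring
    linarith
  obtain ⟨T4, hT4⟩ := Filter.eventually_atTop.1 (Real.tendsto_log_atTop.eventually hev)
  refine ⟨max (max (t1 + 1) (t2 + 1)) (max T3 (max T4 100)), ?_, fun t ht => ?_⟩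
  · refine le_trans (by linarith) ((le_max_left (t1 + 1) (t2 + 1)).trans (le_max_left _ _))
  have ha1 : t1 + 1 ≤ t := ((le_max_left _ _).trans (le_max_left _ _)).trans ht
  have ha2 : t2 + 1 ≤ t := ((le_max_right _ _).trans (le_max_left _ _)).trans ht
  have ha3 : T3 ≤ t := ((le_max_left _ _).trans (le_max_right _ _)).trans ht
  have ha4 : T4 ≤ t := ((le_max_left _ _).trans ((le_max_right _ _).trans (le_max_right _ _))).trans ht
  have ha5 : 100 ≤ t := ((le_max_right _ _).trans ((le_max_right _ _).trans (le_max_right _ _))).trans ht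
  obtain ⟨c1, c2⟩ := hT4 t ha4
  obtain ⟨L, hL⟩ : ∃ L : ℝ, L = Real.log t := ⟨_, rfl⟩
  rw [← hL] at c1 c2
  have hL1 : 1 ≤ L := by
    rw [hL, Real.le_log_iff_exp_le (by linarith)]
    linarith [Real.exp_one_lt_d9]
  have hL0 : 0 < L := by linarith
  have hLd : L ^ (d - 1) = L ^ d / L := by rw [Real.rpow_sub hL0, Real.rpow_one]
  have hR0 : 0 < L ^ (d - 1) := by positivity
  have hd1le : d < 1 := lt_of_le_of_lt hda hd1'
  have hR1 : L ^ (d - 1) ≤ 1 := Real.rpow_le_one_of_one_le_of_nonpos hL1 (by linarith)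
  have hinv : 1 / L ≤ 1 / 4 * L ^ (d - 1) := by
    rw [hLd, div_le_iff₀ hL0]
    calc 1 ≤ 1 / 4 * L ^ d := by linarith
      _ = 1 / 4 * (L ^ d / L) * L := by field_simp
  -- the region
  have hreg : ∀ z : ℂ, |z.im - t| ≤ 1 → 1 - 1 / 2 * L ^ (d - 1) ≤ z.re → z.re ≤ 2 →
      riemannZeta z ≠ 0 ∧ ‖riemannZeta z‖ ≤ K1 * (2 * L) ∧
      ‖(riemannZeta z)⁻¹‖ ≤ (2 * L) ^ K2 := by
    intro z hz1 hz2 hz3
    have hz1' := abs_le.1 hz1
    have hzi : 0 < z.im := by linarith
    have hzz : z = ⟨z.re, z.im⟩ := rfl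
    have hlz : Real.log |z.im| ≤ 2 * L := by
      rw [abs_of_pos hzi, hL]
      have h1 : Real.log z.im ≤ Real.log (t ^ 2) := Real.log_le_log hzi (by nlinarith)
      rwa [Real.log_pow] at h1
    have hlz1 : 1 ≤ Real.log |z.im| := by
      rw [abs_of_pos hzi, Real.le_log_iff_exp_le hzi]
      linarith [Real.exp_one_lt_d9]
    have hcmp : ∀ e : ℝ, d ≤ e → e < 1 → 1 - (Real.log |z.im|) ^ (e - 1) ≤ z.re := by
      intro e he he1
      have h1 : (2 * L) ^ (d - 1) ≤ (Real.log |z.im|) ^ (e - 1) := by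
        calc (2 * L) ^ (d - 1) ≤ (Real.log |z.im|) ^ (d - 1) :=
              Real.rpow_le_rpow_of_nonpos (by linarith) hlz (by linarith)
          _ ≤ (Real.log |z.im|) ^ (e - 1) := Real.rpow_le_rpow_of_exponent_le hlz1 (by linarith)
      have h2 : 1 / 2 * L ^ (d - 1) ≤ (2 * L) ^ (d - 1) := by
        rw [Real.mul_rpow (by norm_num) hL0.le]
        have h3 : (1 / 2 : ℝ) ≤ 2 ^ (d - 1) := by
          calc (1 / 2 : ℝ) = 2 ^ (-1 : ℝ) := by rw [Real.rpow_neg_one]; norm_num
            _ ≤ 2 ^ (d - 1) := Real.rpow_le_rpow_of_exponent_le (by norm_num) (by linarith)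
        gcongr
      linarith
    obtain ⟨f1, f2⟩ := hf z.re z.im (by rw [abs_of_pos hzi]; linarith) (hcmp d2 hdb hd2') hz3
    have f3 := hz z.re z.im (by rw [abs_of_pos hzi]; linarith) (hcmp d1 hda hd1') (by linarith)
    rw [← hzz] at f1 f2 f3
    refine ⟨f1, f3.trans (by gcongr), f2.trans ?_⟩
    exact Real.rpow_le_rpow (by linarith) hlz (by linarith)
  intro w hw1 hw2 hw3
  rw [← hL] at hw1 ⊢
  have hw3' := abs_le.1 hw3
  rcases le_total (5 / 4) w.re with h5 | h5
  · obtain ⟨g1, -⟩ := hg t ha3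
    obtain ⟨g2, g3⟩ := g1 w (by linarith [min_le_right ε (1 / 4)]) hw2 hw3
    refine ⟨g2, g3.trans ?_⟩
    rw [← hL]
    exact mul_le_mul_of_nonneg_right (min_le_left _ _) hL0.le
  · obtain ⟨w1, -, w3⟩ := hreg w (hw3.trans (by norm_num)) (by linarith) (by linarith)
    refine ⟨w1, ?_⟩
    have hball : ∀ z ∈ ball w (1 / 4 * L ^ (d - 1)), |z.im - t| ≤ 1 ∧ 1 - 1 / 2 * L ^ (d - 1) ≤ z.re ∧
        z.re ≤ 2 := by
      intro z hz
      rw [mem_ball, dist_eq_norm] at hz
      have h1 := abs_lt.1 ((abs_re_le_norm (z - w)).trans_lt hz)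
      have h2 := abs_lt.1 ((abs_im_le_norm (z - w)).trans_lt hz)
      rw [sub_re] at h1
      rw [sub_im] at h2
      refine ⟨abs_le.2 ⟨by linarith, by linarith⟩, by linarith, by linarith⟩
    obtain ⟨M, hM⟩ : ∃ M : ℝ, M = Real.log (K1 * (2 * L)) + K2 * Real.log (2 * L) := ⟨_, rfl⟩
    have hM0 : 0 < M := by
      have h1 : 0 < Real.log (2 * L) := Real.log_pos (by linarith)
      have h2 : 0 < Real.log (K1 * (2 * L)) := Real.log_pos (by nlinarith)
      rw [hM]; positivity
    have hld := ld_center (g := riemannZeta) (c := w) (R := 1 / 4 * L ^ (d - 1)) (M := M)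
      (by positivity) hM0 (by
      intro z hz
      have hz' := hball z hz
      have hz1 := abs_le.1 hz'.1
      have : z ≠ 1 := by
        intro h
        rw [h, one_im] at hz1
        linarith
      exact (differentiableAt_riemannZeta this).differentiableWithinAt) (by
      intro z hz
      have hz' := hball z hz
      exact (hreg z hz'.1 hz'.2.1 hz'.2.2).1) (by
      intro z hz
      have hz' := hball z hz
      have h1 := (hreg z hz'.1 hz'.2.1 hz'.2.2).2.1
      have h2 : Real.exp M = K1 * (2 * L) * (2 * L) ^ K2 := by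
        rw [hM, Real.exp_add, Real.exp_log (by positivity), mul_comm K2, Real.exp_mul,
          Real.exp_log (by positivity)]
      rw [h2]
      have h3 : 1 ≤ (2 * L) ^ K2 * ‖riemannZeta w‖ := by
        rw [norm_inv] at w3
        have h4 : 0 < ‖riemannZeta w‖ := norm_pos_iff.2 w1
        calc 1 = ‖riemannZeta w‖⁻¹ * ‖riemannZeta w‖ := by field_simp
          _ ≤ _ := by gcongr
      calc ‖riemannZeta z‖ ≤ K1 * (2 * L) * 1 := by rw [mul_one]; exact h1
        _ ≤ K1 * (2 * L) * ((2 * L) ^ K2 * ‖riemannZeta w‖) := by gcongr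
        _ = _ := by ring)
    refine hld.trans ?_
    have h6 : M = Real.log K1 + (1 + K2) * Real.log (2 * L) := by
      rw [hM, Real.log_mul (by positivity) (by positivity)]
      ring
    rw [← h6] at c2
    calc 4 * M / (1 / 4 * L ^ (d - 1)) = 16 * M / L ^ d * L := by
          rw [hLd]; field_simp; ring
      _ ≤ ε * L := by
          gcongr
          rw [div_le_iff₀ (by positivity)]
          exact c2

/-- the logarithmic derivative in a strip without zeros -/
theorem gd_strip (δ δ' ε : ℝ) (hδ : δ ≤ 1 / 2) (hδ0 : 0 < δ') (hδ1 : δ' < δ) (hε : 0 < ε)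
    (hz : ∃ T0 : ℝ, ∀ s : ℂ, 1 - δ < s.re → T0 ≤ s.im → riemannZeta s ≠ 0) :
    ∃ T0 : ℝ, 3 ≤ T0 ∧ ∀ t : ℝ, T0 ≤ t → Gd t (1 - δ') ε := by
  obtain ⟨T1, hT1⟩ := hz
  have hδp : 0 < δ := by linarith
  obtain ⟨η0, hη0⟩ : ∃ η0 : ℝ, η0 = min (1 / 4) ((δ - δ') / δ) := ⟨_, rfl⟩
  have h00 : 0 < η0 := by rw [hη0]; exact lt_min (by norm_num) (by apply div_pos <;> linarith)
  have h01 : η0 ≤ 1 / 4 := by rw [hη0]; exact min_le_left _ _
  have h02 : η0 * δ ≤ δ - δ' := by
    have : η0 ≤ (δ - δ') / δ := by rw [hη0]; exact min_le_right _ _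
    rwa [le_div_iff₀ hδp] at this
  obtain ⟨e, he, hS⟩ := Pool.Agent.H986R2.K4.sab η0 (ε * δ / 2) 2 h00 h01 (by positivity) (by norm_num)
  have hδ' : 0 < min (e / 2) (δ / 2) := lt_min (by positivity) (by positivity)
  obtain ⟨T2, hT2, hr⟩ := gd_right (min (e / 2) (δ / 2)) hδ'
  obtain ⟨T3, hT3, hr'⟩ := gd_right (min ε δ) (lt_min hε hδp)
  refine ⟨max (max (T1 + 10) (T2 + 10)) (max T3 200), le_trans (by norm_num)
    ((le_max_right _ _).trans (le_max_right _ _)), fun t ht => ?_⟩
  have ha1 : T1 + 10 ≤ t := ((le_max_left _ _).trans (le_max_left _ _)).trans ht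
  have ha2 : T2 + 10 ≤ t := ((le_max_right _ _).trans (le_max_left _ _)).trans ht
  have ha3 : T3 ≤ t := ((le_max_left _ _).trans (le_max_right _ _)).trans ht
  have ha4 : 200 ≤ t := ((le_max_right _ _).trans (le_max_right _ _)).trans ht
  intro w h1 h2 h3
  have h3' := abs_le.1 h3
  have hlogt : 0 < Real.log t := Real.log_pos (by linarith)
  rcases le_total w.re (1 + 2 * δ) with h4 | h4
  · obtain ⟨Y, hY⟩ : ∃ Y : ℝ, Y = w.im := ⟨_, rfl⟩
    have hY100 : 100 ≤ Y := by linarith
    have hlogpos : 1 ≤ Real.log Y := by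
      rw [Real.le_log_iff_exp_le (by linarith)]
      linarith [Real.exp_one_lt_d9]
    obtain ⟨pt, hpt⟩ : ∃ pt : ℂ → ℂ, pt = fun u => ((1 - δ : ℝ) : ℂ) + (Y : ℂ) * I + ((δ : ℝ) : ℂ) * u :=
      ⟨_, rfl⟩
    have hptre : ∀ u, (pt u).re = 1 - δ + δ * u.re := by
      intro u; simp [hpt]
    have hptim : ∀ u, (pt u).im = Y + δ * u.im := by
      intro u; simp [hpt]
    have hptd : ∀ u, HasDerivAt pt ((δ : ℝ) : ℂ) u := by
      intro u
      have h0 := ((hasDerivAt_id u).const_mul ((δ : ℝ) : ℂ)).const_add (((1 - δ : ℝ) : ℂ) + (Y : ℂ) * I)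
      rw [hpt]
      exact h0.congr_deriv (mul_one _)
    have hab : ∀ u : ℂ, |u.im| ≤ 10 → |δ * u.im| ≤ 5 := by
      intro u hu
      rw [abs_mul, abs_of_pos hδp]
      nlinarith
    have hcond1 : ∀ u : ℂ, 0 < u.re → u.re ≤ 10 → |u.im| ≤ 10 → pt u ≠ 1 ∧ riemannZeta (pt u) ≠ 0 := by
      intro u h1 h2 h3
      have h4 := abs_le.1 (hab u h3)
      constructor
      · intro h
        have := congrArg Complex.im h
        rw [hptim, one_im] at this
        linarith
      · apply hT1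
        · rw [hptre]
          have : 0 < δ * u.re := mul_pos hδp h1
          linarith
        · rw [hptim]
          linarith
    have hmain := hS (Real.log Y) (fun u => riemannZeta (pt u)) hlogpos (by
      intro u h1 h2 h3
      obtain ⟨h4, h5⟩ := hcond1 u h1 h2 h3
      have h3' := abs_le.1 (hab u h3)
      have hre1 : 0 < δ * u.re := mul_pos hδp h1
      have hre2 : δ * u.re ≤ 5 := by nlinarith
      refine ⟨(differentiableAt_riemannZeta h4).comp u (hptd u).differentiableAt, h5, ?_⟩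
      have hb := H353.FF_bound (1 / 2) (by norm_num) (pt u) (by rw [hptre]; linarith)
      rw [FF_ne' h4, norm_mul] at hb
      have hn : ‖pt u‖ ≤ Y + 11 := by
        refine (norm_le_abs_re_add_abs_im _).trans ?_
        rw [hptre, hptim, abs_of_pos (by linarith), abs_of_pos (by linarith)]
        linarith
      have hn1 : Y - 5 ≤ ‖pt u - 1‖ := by
        have h6 := abs_im_le_norm (pt u - 1)
        rw [sub_im, one_im, sub_zero, hptim, abs_of_pos (by linarith)] at h6
        linarith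
      have h7 : Real.exp (2 * Real.log Y) = Y ^ 2 := by
        rw [mul_comm, Real.exp_mul, Real.exp_log (by linarith)]
        norm_num
      rw [h7]
      have h8 : (Y - 5) * ‖riemannZeta (pt u)‖ ≤ 3 * (Y + 12) ^ 2 := by
        calc (Y - 5) * ‖riemannZeta (pt u)‖ ≤ ‖pt u - 1‖ * ‖riemannZeta (pt u)‖ :=
              mul_le_mul_of_nonneg_right hn1 (norm_nonneg _)
          _ ≤ _ := hb
          _ ≤ (1 + 1 / (1 / 2)) * (1 + (Y + 11)) ^ 2 := by gcongr
          _ = 3 * (Y + 12) ^ 2 := by norm_num; ring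
      have h9 : 3 * (Y + 12) ^ 2 ≤ (Y - 5) * Y ^ 2 := by nlinarith [sq_nonneg (Y - 100)]
      exact le_of_mul_le_mul_left (h8.trans h9) (by linarith)) (by
      intro u h1 h2 h3
      have h3' := abs_le.1 (hab u h3)
      have hre1 : δ * (3 / 2) ≤ δ * u.re := mul_le_mul_of_nonneg_left h1 hδp.le
      obtain ⟨y, hy⟩ : ∃ y : ℝ, y = (pt u).im := ⟨_, rfl⟩
      have hy1 : y = Y + δ * u.im := by rw [hy, hptim]
      have g2 := (hr y (by linarith)).2 (pt u) (by
        rw [hptre]
        have := min_le_right (e / 2) (δ / 2)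
        linarith) (by rw [← hy]; simp)
      have hy0 : 0 < y := by linarith
      rw [Real.rpow_def_of_pos hy0, Real.rpow_def_of_pos hy0] at g2
      have hly : Real.log y ≤ 2 * Real.log Y := by
        have h1 : Real.log y ≤ Real.log (Y ^ 2) := Real.log_le_log hy0 (by nlinarith)
        rwa [Real.log_pow] at h1
      have hm := min_le_left (e / 2) (δ / 2)
      have hme : Real.log y * min (e / 2) (δ / 2) ≤ e * Real.log Y := by
        calc Real.log y * min (e / 2) (δ / 2) ≤ (2 * Real.log Y) * (e / 2) := by gcongr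
          _ = _ := by ring
      constructor
      · refine le_trans ?_ g2.1
        apply Real.exp_le_exp.2
        rw [mul_neg]
        linarith
      · refine g2.2.trans ?_
        exact Real.exp_le_exp.2 hme)
    obtain ⟨x, hx⟩ : ∃ x : ℝ, x = (w.re - (1 - δ)) / δ := ⟨_, rfl⟩
    have hxδ : δ * x = w.re - (1 - δ) := by rw [hx]; field_simp
    have hpu : pt (x : ℂ) = w := by
      apply Complex.ext
      · rw [hptre, ofReal_re, hxδ]; ring
      · rw [hptim, ofReal_im, mul_zero, add_zero, hY]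
    have hx1 : η0 ≤ x := by
      rw [hx, le_div_iff₀ hδp]; linarith
    have hx2 : x ≤ 3 := by
      rw [hx, div_le_iff₀ hδp]; linarith
    obtain ⟨hne1, hne⟩ := hcond1 (x : ℂ) (by rw [ofReal_re]; linarith) (by rw [ofReal_re]; linarith)
      (by rw [ofReal_im]; norm_num)
    have h6 := (hmain (x : ℂ) (by rw [ofReal_re]; exact hx1) (by rw [ofReal_re]; exact hx2)
      (by rw [ofReal_im]; norm_num)).1
    rw [hpu] at hne hne1
    refine ⟨hne, ?_⟩
    have h7 : logDeriv (fun u => riemannZeta (pt u)) (x : ℂ) = ((δ : ℝ) : ℂ) * logDeriv riemannZeta w := by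
      have h8 : HasDerivAt (fun u => riemannZeta (pt u)) (deriv riemannZeta (pt (x : ℂ)) * ((δ : ℝ) : ℂ))
          (x : ℂ) := by
        have hz := (differentiableAt_riemannZeta (s := pt (x : ℂ)) (by rw [hpu]; exact hne1)).hasDerivAt
        exact HasDerivAt.comp (x : ℂ) hz (hptd (x : ℂ))
      rw [logDeriv_apply, logDeriv_apply, h8.deriv, hpu]
      ring
    rw [h7, norm_mul, norm_real, Real.norm_of_nonneg hδp.le] at h6
    have hlY : Real.log Y ≤ 2 * Real.log t := by
      have h1 : Real.log Y ≤ Real.log (t ^ 2) := Real.log_le_log (by linarith) (by nlinarith)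
      rwa [Real.log_pow] at h1
    have h9 : δ * ‖logDeriv riemannZeta w‖ ≤ δ * (ε * Real.log t) := by
      calc δ * ‖logDeriv riemannZeta w‖ ≤ ε * δ / 2 * Real.log Y := h6
        _ ≤ ε * δ / 2 * (2 * Real.log t) := by gcongr
        _ = _ := by ring
    exact le_of_mul_le_mul_left h9 hδp
  · have h5 := (hr' t ha3).1 w (by
      have := min_le_right ε δ
      linarith) h2 h3
    refine ⟨h5.1, h5.2.trans ?_⟩
    exact mul_le_mul_of_nonneg_right (min_le_left _ _) hlogt.le

end Q240.QS
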