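import Pool.Agent.Q240.QS.PropK
import Pool.Agent.Q240.QS.One

/-!
# Zeros of the derivatives of zeta near the imaginary axis
-/

set_option autoImplicit false

namespace Q240.QS

open Complex Filter Topology Metric Set

theorem it_conj (k : ℕ) (s : ℂ) : iteratedDeriv k riemannZeta ((starRingEnd ℂ) s) =
    (starRingEnd ℂ) (iteratedDeriv k riemannZeta s) := by
  induction k generalizing s with
  | zero => simp [riemannZeta_conj]
  | succ k ih =>
    rw [iteratedDeriv_succ]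
    have h1 : iteratedDeriv k riemannZeta = (⇑(starRingEnd ℂ) ∘ (iteratedDeriv k riemannZeta) ∘
        ⇑(starRingEnd ℂ)) := by
      funext z
      simp only [Function.comp_apply]
      rw [ih, Complex.conj_conj]
    have h2 := congrFun (deriv_conj_conj (f := iteratedDeriv k riemannZeta)) ((starRingEnd ℂ) s)
    rw [← h1] at h2
    simp only [Function.comp_apply, Complex.conj_conj] at h2
    exact h2

theorem it_ne (k : ℕ) : ∃ T0 : ℝ, 3 ≤ T0 ∧ ∀ s : ℂ, T0 ≤ s.im → -3 / 2 ≤ s.re → s.re ≤ -(1 / 2) →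
    iteratedDeriv k riemannZeta s ≠ 0 := by
  obtain ⟨T0, hT0, h⟩ := left_ratio k (1 / 2) (1 / 2) (by norm_num) (by norm_num)
  refine ⟨T0, hT0, fun s h1 h2 h3 h4 => ?_⟩
  obtain ⟨r1, r2⟩ := h s h1 h2 h3
  have hl : 0 < Real.log s.im := Real.log_pos (by linarith)
  rw [h4, zero_sub, norm_neg, norm_mul, norm_pow, norm_neg, norm_real, Real.norm_of_nonneg hl.le] at r2
  have h7 : 0 < Real.log s.im ^ k * ‖riemannZeta s‖ := by
    have := norm_pos_iff.2 r1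
    positivity
  linarith

/-- finitely many zeros in a compact set -/
theorem fin_compact (k : ℕ) (K : Set ℂ) (hK : IsCompact K) (h1 : (1 : ℂ) ∉ K) :
    {s : ℂ | s ∈ K ∧ iteratedDeriv k riemannZeta s = 0}.Finite := by
  by_contra hinf
  have hinf' : {s : ℂ | s ∈ K ∧ iteratedDeriv k riemannZeta s = 0}.Infinite := hinf
  obtain ⟨z, hz, hacc⟩ := hinf'.exists_accPt_of_subset_isCompact hK (fun s hs => hs.1)
  have hz1 : z ≠ 1 := by rintro rfl; exact h1 hz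
  have hana : AnalyticOnNhd ℂ (iteratedDeriv k riemannZeta) ({1}ᶜ : Set ℂ) := fun s hs => an_it k hs
  have hconn : IsPreconnected ({1}ᶜ : Set ℂ) :=
    (isConnected_compl_singleton_of_one_lt_rank (rank_real_complex ▸ Nat.one_lt_ofNat) 1).isPreconnected
  have hfreq : ∃ᶠ s in 𝓝[≠] z, iteratedDeriv k riemannZeta s = 0 := by
    rw [accPt_iff_frequently_nhdsNE] at hacc
    exact hacc.mono fun s hs => hs.2
  have hzero := hana.eqOn_zero_of_preconnected_of_frequently_eq_zero hconn hz1 hfreq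
  obtain ⟨T0, hT0, hne⟩ := it_ne k
  have hre : ((-1 : ℝ) + (T0 : ℂ) * I : ℂ).re = -1 := by simp
  have him : ((-1 : ℝ) + (T0 : ℂ) * I : ℂ).im = T0 := by simp
  have h2 := hne (((-1 : ℝ) : ℂ) + (T0 : ℂ) * I) (by rw [him]) (by rw [hre]; norm_num)
    (by rw [hre]; norm_num)
  apply h2
  apply hzero
  intro h
  rw [mem_singleton_iff] at h
  have := congrArg Complex.re h
  rw [hre, one_re] at this
  norm_num at this

theorem fin_strip (k : ℕ) (a b T : ℝ) (hb : b < 1) (h : ∀ s : ℂ, a ≤ s.re → s.re ≤ b → T ≤ s.im →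
    iteratedDeriv k riemannZeta s ≠ 0) :
    {s : ℂ | a ≤ s.re ∧ s.re ≤ b ∧ iteratedDeriv k riemannZeta s = 0}.Finite := by
  refine (fin_compact k (Icc a b ×ℂ Icc (-T) T) (isCompact_Icc.reProdIm isCompact_Icc) ?_).subset ?_
  · intro h1
    rw [mem_reProdIm] at h1
    have := h1.1.2
    rw [one_re] at this
    linarith
  · rintro s ⟨h1, h2, h3⟩
    refine ⟨?_, h3⟩
    rw [mem_reProdIm]
    refine ⟨⟨h1, h2⟩, ?_, ?_⟩
    · by_contra hc
      push Not at hc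
      refine h ((starRingEnd ℂ) s) (by simpa using h1) (by simpa using h2) (by rw [conj_im]; linarith) ?_
      rw [it_conj, h3, map_zero]
    · by_contra hc
      push Not at hc
      exact h s h1 h2 hc.le h3

theorem ratio_ne {k : ℕ} {L : ℝ} {F z : ℂ} (hL : 0 < L) (hz : z ≠ 0)
    (h : ‖F - (-((L : ℝ) : ℂ)) ^ k * z‖ ≤ 1 / 2 * L ^ k * ‖z‖) : F ≠ 0 := by
  intro h4
  rw [h4, zero_sub, norm_neg, norm_mul, norm_pow, norm_neg, norm_real, Real.norm_of_nonneg hL.le] at h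
  have h7 : 0 < L ^ k * ‖z‖ := by
    have := norm_pos_iff.2 hz
    positivity
  linarith

/-- no zeros on and to the left of the imaginary axis -/
theorem left_ne (k : ℕ) : ∃ T0 : ℝ, 3 ≤ T0 ∧ ∀ s : ℂ, -3 / 2 ≤ s.re → s.re ≤ 0 → T0 ≤ s.im →
    iteratedDeriv k riemannZeta s ≠ 0 := by
  obtain ⟨ε', T1, he, hT1, hr⟩ := ratio k (1 / 2) (by norm_num)
  obtain ⟨T2, hT2, hg⟩ := gd_one ε' he
  refine ⟨max T1 T2, hT1.trans (le_max_left _ _), fun s h1 h2 h3 => ?_⟩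
  have ha : T1 ≤ s.im := (le_max_left _ _).trans h3
  have hb : T2 ≤ s.im := (le_max_right _ _).trans h3
  obtain ⟨r1, r2⟩ := hr s.im _ ha (hg s.im hb) s rfl h1 (by linarith) (by linarith)
  exact ratio_ne (Real.log_pos (by linarith)) r1 r2

theorem part1 (k : ℕ) : {s : ℂ | -1 ≤ s.re ∧ s.re ≤ 0 ∧ iteratedDeriv k riemannZeta s = 0}.Finite := by
  obtain ⟨T0, -, h⟩ := left_ne k
  exact fin_strip k (-1) 0 T0 (by norm_num) (fun s h1 h2 h3 => h s (by linarith) h2 h3)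

theorem part2 (k : ℕ) (δ δ' : ℝ) (h0 : 0 < δ') (h1 : δ' < δ) (h2 : δ ≤ 1 / 2)
    (hf : {ρ : ℂ | 1 - δ < ρ.re ∧ riemannZeta ρ = 0}.Finite) :
    {s : ℂ | |s.re| < δ' ∧ iteratedDeriv k riemannZeta s = 0}.Finite := by
  obtain ⟨ε', T1, he, hT1, hr⟩ := ratio k (1 / 2) (by norm_num)
  have hz : ∃ T0 : ℝ, ∀ s : ℂ, 1 - δ < s.re → T0 ≤ s.im → riemannZeta s ≠ 0 := by
    obtain ⟨B, hB⟩ := (hf.image Complex.im).bddAbove
    refine ⟨B + 1, fun s hs1 hs2 hs3 => ?_⟩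
    have := hB ⟨s, ⟨hs1, hs3⟩, rfl⟩
    linarith
  obtain ⟨T2, hT2, hg⟩ := gd_strip δ ((δ + δ') / 2) ε' h2 (by linarith) (by linarith) he hz
  obtain ⟨T3, hT3⟩ : ∃ T3 : ℝ, ∀ t : ℝ, T3 ≤ t → 2 / (δ - δ') ≤ Real.log t :=
    Filter.eventually_atTop.1 (Real.tendsto_log_atTop.eventually_ge_atTop _)
  have hdd : 0 < δ - δ' := by linarith
  refine (fin_strip k (-δ') δ' (max T1 (max T2 T3)) (by linarith) (fun s hs1 hs2 hs3 => ?_)).subset ?_
  · have ha : T1 ≤ s.im := (le_max_left _ _).trans hs3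
    have hb : T2 ≤ s.im := (le_max_left _ _).trans ((le_max_right _ _).trans hs3)
    have hc : T3 ≤ s.im := (le_max_right _ _).trans ((le_max_right _ _).trans hs3)
    have hl := hT3 s.im hc
    have hl0 : 0 < Real.log s.im := lt_of_lt_of_le (by positivity) hl
    have hinv : 1 / Real.log s.im ≤ (δ - δ') / 2 := by
      rw [div_le_div_iff₀ hl0 (by norm_num)]
      rw [div_le_iff₀ hdd] at hl
      linarith
    obtain ⟨r1, r2⟩ := hr s.im _ ha (hg s.im hb) s rfl (by linarith) (by linarith) (by linarith)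
    exact ratio_ne hl0 r1 r2
  · rintro s ⟨hs1, hs2⟩
    have := abs_lt.1 hs1
    exact ⟨this.1.le, this.2.le, hs2⟩

theorem iter (j k : ℕ) : ∀ ε : ℝ, 0 < ε → ε ≤ 1 / 2 → ∃ δ0 : ℝ, 0 < δ0 ∧ ∀ δ : ℝ, 0 < δ → δ ≤ δ0 →
    ∃ T0 : ℝ, ∀ ρ : ℂ, |ρ.re| < (1 - ε) * δ → T0 ≤ ρ.im → iteratedDeriv j riemannZeta ρ = 0 →
    ∃ s : ℂ, |s.re| < δ ∧ ρ.im / 4 ^ k ≤ s.im ∧ s.im ≤ 4 ^ k * ρ.im ∧
      iteratedDeriv (j + k) riemannZeta s = 0 := by
  induction k with
  | zero =>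
    intro ε hε hε1
    refine ⟨1, one_pos, fun δ hδ _ => ⟨0, fun ρ h1 h2 h3 => ⟨ρ, ?_, ?_, ?_, ?_⟩⟩⟩
    · refine h1.trans ?_
      nlinarith
    · simp
    · simp
    · simpa using h3
  | succ k ih =>
    intro ε hε hε1
    obtain ⟨δa, hδa, ha⟩ := ih (ε / 2) (by positivity) (by linarith)
    obtain ⟨δb, hδb, hb⟩ := propK (j + k) (ε / 2) (by positivity) (by linarith)
    refine ⟨min δa δb, lt_min hδa hδb, fun δ hδ hδ' => ?_⟩
    have h1a : (1 - ε / 2) * δ ≤ δ := by nlinarith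
    obtain ⟨Ta, hTa⟩ := ha ((1 - ε / 2) * δ) (mul_pos (by linarith) hδ)
      (h1a.trans (hδ'.trans (min_le_left _ _)))
    obtain ⟨Tb, hTb⟩ := hb δ hδ (hδ'.trans (min_le_right _ _))
    refine ⟨max Ta (4 ^ k * Tb), fun ρ h1 h2 h3 => ?_⟩
    have h4k : (0 : ℝ) < 4 ^ k := by positivity
    have e1 : (1 - ε) * δ ≤ (1 - ε / 2) * ((1 - ε / 2) * δ) := by nlinarith [mul_pos (mul_pos hε hε) hδ]
    obtain ⟨s1, q1, q2, q3, q4⟩ := hTa ρ (h1.trans_le e1) ((le_max_left _ _).trans h2) h3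
    have q5 : Tb ≤ s1.im := by
      refine le_trans ?_ q2
      rw [le_div_iff₀ h4k, mul_comm]
      exact (le_max_right _ _).trans h2
    obtain ⟨s, p1, p2, p3, p4⟩ := hTb s1 q1 q5 q4
    refine ⟨s, p1, ?_, ?_, p4⟩
    · refine le_trans (le_of_eq ?_) ((div_le_div_of_nonneg_right q2 (by norm_num : (0 : ℝ) ≤ 4)).trans p2)
      rw [pow_succ, div_div]
    · refine p3.trans ?_
      rw [pow_succ]
      linarith

theorem refl_zero {ρ : ℂ} (h0 : riemannZeta ρ = 0) (hre : 0 < ρ.re) :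
    riemannZeta (1 - ρ) = 0 ∧ ρ.re < 1 := by
  have h1 : ρ.re < 1 := by
    by_contra hc
    push Not at hc
    exact riemannZeta_ne_zero_of_one_le_re hc h0
  refine ⟨?_, h1⟩
  rw [riemannZeta_one_sub, h0, mul_zero]
  · intro n hn
    rw [hn] at hre
    simp at hre
    linarith [(Nat.cast_nonneg n : (0 : ℝ) ≤ n)]
  · intro hn
    rw [hn, one_re] at h1
    exact lt_irrefl _ h1

theorem part3 (j k : ℕ) (ε : ℝ) (hε : 0 < ε) : ∃ δ0 : ℝ, 0 < δ0 ∧ ∀ δ : ℝ, 0 < δ → δ ≤ δ0 →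
    ∃ T0 : ℝ, ∀ ρ : ℂ, iteratedDeriv j riemannZeta ρ = 0 → |ρ.re| < (1 - ε) * δ → T0 ≤ |ρ.im| →
    ∃ s : ℂ, iteratedDeriv (j + k) riemannZeta s = 0 ∧ 0 < s.re ∧ s.re < δ ∧
      |ρ.im| / 4 ^ k ≤ |s.im| ∧ |s.im| ≤ 4 ^ k * |ρ.im| := by
  obtain ⟨e, he⟩ : ∃ e : ℝ, e = min ε (1 / 2) := ⟨_, rfl⟩
  have he0 : 0 < e := by rw [he]; exact lt_min hε (by norm_num)
  have he1 : e ≤ 1 / 2 := by rw [he]; exact min_le_right _ _
  have he2 : e ≤ ε := by rw [he]; exact min_le_left _ _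
  obtain ⟨δ0, hδ0, hit⟩ := iter j k e he0 he1
  obtain ⟨T1, hT1, hleft⟩ := left_ne (j + k)
  refine ⟨min δ0 1, lt_min hδ0 one_pos, fun δ hδ hδ' => ?_⟩
  have hδ1 : δ ≤ 1 := hδ'.trans (min_le_right _ _)
  obtain ⟨T0, hT0⟩ := hit δ hδ (hδ'.trans (min_le_left _ _))
  refine ⟨max T0 (4 ^ k * T1), fun ρ h0 h1 h2 => ?_⟩
  have h4k : (0 : ℝ) < 4 ^ k := by positivity
  have hee : (1 - ε) * δ ≤ (1 - e) * δ := mul_le_mul_of_nonneg_right (by linarith) hδ.le
  -- a zero with positive imaginary part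
  obtain ⟨v, hv0, hvre, hvim⟩ : ∃ v : ℂ, iteratedDeriv j riemannZeta v = 0 ∧ v.re = ρ.re ∧
      v.im = |ρ.im| := by
    rcases le_total 0 ρ.im with h | h
    · exact ⟨ρ, h0, rfl, (abs_of_nonneg h).symm⟩
    · refine ⟨(starRingEnd ℂ) ρ, ?_, ?_, ?_⟩
      · rw [it_conj, h0, map_zero]
      · simp
      · rw [abs_of_nonpos h]; simp
  obtain ⟨s, p1, p2, p3, p4⟩ := hT0 v (by rw [hvre]; exact h1.trans_le hee) (by
    rw [hvim]; exact (le_max_left _ _).trans h2) hv0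
  rw [hvim] at p2 p3
  have p1' := abs_lt.1 p1
  have hT : T1 ≤ s.im := by
    refine le_trans ?_ p2
    rw [le_div_iff₀ h4k, mul_comm]
    exact (le_max_right _ _).trans h2
  have hs0 : 0 < s.im := by linarith
  refine ⟨s, p4, ?_, p1'.2, ?_, ?_⟩
  · by_contra hc
    push Not at hc
    exact hleft s (by linarith) hc hT p4
  · rw [abs_of_pos hs0]; exact p2
  · rw [abs_of_pos hs0]; exact p3

theorem min_re (S : Set ℂ) (hS : S.Finite) : ∃ m : ℝ, 0 < m ∧ ∀ s ∈ S, 0 < s.re → m ≤ s.re := by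
  have hS' : {s : ℂ | s ∈ S ∧ 0 < s.re}.Finite := hS.subset fun s hs => hs.1
  rcases Set.eq_empty_or_nonempty {s : ℂ | s ∈ S ∧ 0 < s.re} with h | h
  · refine ⟨1, one_pos, fun s hs h0 => ?_⟩
    have : s ∈ {s : ℂ | s ∈ S ∧ 0 < s.re} := ⟨hs, h0⟩
    rw [h] at this
    exact absurd this (Set.notMem_empty _)
  · obtain ⟨a, ha, hm⟩ := Set.exists_min_image _ Complex.re hS' h
    exact ⟨a.re, ha.2, fun s hs h0 => hm s ⟨hs, h0⟩⟩

theorem part4 (k : ℕ) : (∃ δ : ℝ, 0 < δ ∧ ∀ s : ℂ, 0 < s.re → s.re < δ →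
    iteratedDeriv k riemannZeta s ≠ 0) ↔ ∃ θ : ℝ, θ < 1 ∧ ∀ s : ℂ, θ < s.re → riemannZeta s ≠ 0 := by
  constructor
  · rintro ⟨δ, hδ, h⟩
    obtain ⟨δ0, hδ0, h3⟩ := part3 0 k (1 / 2) (by norm_num)
    obtain ⟨d, hd⟩ : ∃ d : ℝ, d = min (min δ δ0) 1 := ⟨_, rfl⟩
    have hd0 : 0 < d := by rw [hd]; exact lt_min (lt_min hδ hδ0) one_pos
    have hda : d ≤ δ := by rw [hd]; exact (min_le_left _ _).trans (min_le_left _ _)
    have hdb : d ≤ δ0 := by rw [hd]; exact (min_le_left _ _).trans (min_le_right _ _)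
    have hdc : d ≤ 1 := by rw [hd]; exact min_le_right _ _
    obtain ⟨T0, hT0⟩ := h3 d hd0 hdb
    have hno : ∀ ρ : ℂ, 1 - (1 - 1 / 2) * d < ρ.re → T0 ≤ |ρ.im| → riemannZeta ρ ≠ 0 := by
      intro ρ h1 h2 h0
      obtain ⟨r1, r2⟩ := refl_zero h0 (by linarith)
      obtain ⟨s, q1, q2, q3, -, -⟩ := hT0 (1 - ρ) (by rw [iteratedDeriv_zero]; exact r1)
        (by rw [sub_re, one_re, abs_of_pos (by linarith)]; linarith)
        (by rw [sub_im, one_im, zero_sub, abs_neg]; exact h2)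
      rw [zero_add] at q1
      exact h s q2 (q3.trans_le hda) q1
    obtain ⟨T1, hT1, hleft⟩ := left_ne 0
    have hfin := fin_strip 0 0 (d / 4) (max T0 T1) (by linarith) (by
      intro s h1 h2 h3 h4
      rcases h1.lt_or_eq with h5 | h5
      · rw [iteratedDeriv_zero] at h4
        obtain ⟨r1, -⟩ := refl_zero h4 h5
        refine hno (1 - s) ?_ ?_ r1
        · rw [sub_re, one_re]; linarith
        · rw [sub_im, one_im, zero_sub, abs_neg]
          exact ((le_max_left _ _).trans h3).trans (le_abs_self _)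
      · exact hleft s (by linarith) h5.symm.le ((le_max_right _ _).trans h3) h4)
    obtain ⟨m, hm, hm'⟩ := min_re _ hfin
    refine ⟨1 - min m (d / 4), by linarith [lt_min hm (show 0 < d / 4 by positivity)],
      fun ρ h1 h0 => ?_⟩
    have e1 := min_le_left m (d / 4)
    have e2 := min_le_right m (d / 4)
    obtain ⟨r1, r2⟩ := refl_zero h0 (by linarith)
    have h2 := hm' (1 - ρ) ⟨by rw [sub_re, one_re]; linarith, by rw [sub_re, one_re]; linarith, by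
      rw [iteratedDeriv_zero]; exact r1⟩ (by rw [sub_re, one_re]; linarith)
    rw [sub_re, one_re] at h2
    linarith
  · rintro ⟨θ, hθ, h⟩
    obtain ⟨δ, hδ⟩ : ∃ δ : ℝ, δ = min (1 - θ) (1 / 2) := ⟨_, rfl⟩
    have hδ0 : 0 < δ := by rw [hδ]; exact lt_min (by linarith) (by norm_num)
    have hδ1 : δ ≤ 1 / 2 := by rw [hδ]; exact min_le_right _ _
    have hδ2 : δ ≤ 1 - θ := by rw [hδ]; exact min_le_left _ _
    have hf : {ρ : ℂ | 1 - δ < ρ.re ∧ riemannZeta ρ = 0}.Finite := by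
      convert Set.finite_empty using 1
      rw [Set.eq_empty_iff_forall_notMem]
      rintro ρ ⟨h1, h2⟩
      exact h ρ (by linarith) h2
    obtain ⟨m, hm, hm'⟩ := min_re _ (part2 k δ (δ / 2) (by positivity) (by linarith) hδ1 hf)
    refine ⟨min m (δ / 2), lt_min hm (by positivity), fun s h1 h2 h3 => ?_⟩
    have h4 := hm' s ⟨by rw [abs_of_pos h1]; exact h2.trans_le (min_le_right _ _), h3⟩ h1
    exact absurd (h2.trans_le (min_le_left _ _)) (not_lt.2 h4)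

end Q240.QS
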