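import Pool.Agent.Q240.QS.Data

/-!
# From the zeros of the next derivative to the zeros of a derivative
-/

set_option autoImplicit false

namespace Q240.QS

open Complex Filter Topology Metric Set

theorem propK (k : ℕ) (ε : ℝ) (hε : 0 < ε) (hε1 : ε ≤ 1 / 2) : ∃ δ0 : ℝ, 0 < δ0 ∧ ∀ δ : ℝ, 0 < δ →
    δ ≤ δ0 → ∃ T0 : ℝ, ∀ ρ : ℂ, |ρ.re| < (1 - ε) * δ → T0 ≤ ρ.im →
    iteratedDeriv k riemannZeta ρ = 0 → ∃ s : ℂ, |s.re| < δ ∧ ρ.im / 4 ≤ s.im ∧ s.im ≤ 4 * ρ.im ∧
      iteratedDeriv (k + 1) riemannZeta s = 0 := by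
  obtain ⟨Kε, hKε⟩ : ∃ Kε : ℝ, Kε = 9 + 3 * Real.log (4 / (ε / 64)) := ⟨_, rfl⟩
  have hKε0 : 0 < Kε := by
    have : 0 < Real.log (4 / (ε / 64)) := by
      apply Real.log_pos
      rw [one_lt_div (by positivity)]
      linarith
    rw [hKε]; linarith
  obtain ⟨ε1, hε1d⟩ : ∃ ε1 : ℝ, ε1 = ε / (8 * (1 + Kε)) := ⟨_, rfl⟩
  have he0 : 0 < ε1 := by rw [hε1d]; positivity
  have heK : ε1 * (1 + Kε) ≤ ε / 8 := by
    rw [hε1d]
    apply le_of_eq
    field_simp
  have he1 : ε1 ≤ 1 / 16 := by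
    have : ε1 * 1 ≤ ε1 * (1 + Kε) := mul_le_mul_of_nonneg_left (by linarith) he0.le
    linarith
  obtain ⟨δ1, hδ1, hup⟩ := upper k ε1 he0 (by linarith)
  refine ⟨min δ1 (1 / 40), lt_min hδ1 (by norm_num), fun δ hδ hδ' => ?_⟩
  have hδa : δ ≤ δ1 := hδ'.trans (min_le_left _ _)
  have hδb : δ ≤ 1 / 40 := hδ'.trans (min_le_right _ _)
  obtain ⟨T2, hT2, hup⟩ := hup δ hδ hδa
  obtain ⟨T3, hT3, hlow⟩ := left_lower k δ (ε1 * δ / 2) hδ (by positivity)
  obtain ⟨T4, hT4, hrat⟩ := left_ratio (k + 1) δ (1 / 2) hδ (by norm_num)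
  obtain ⟨T5, hT5, hbar⟩ := barrier_anti k
  obtain ⟨T6, hT6⟩ : ∃ T6 : ℝ, ∀ t : ℝ, T6 ≤ t → 8 / (ε1 * δ) + 100 ≤ Real.log t :=
    Filter.eventually_atTop.1 (Real.tendsto_log_atTop.eventually_ge_atTop _)
  refine ⟨max (4 * max T2 (max T3 T4)) (max (max T5 T6) 100), ?_⟩
  intro ρ hρre hρim hρ0
  by_contra hcon
  push Not at hcon
  have hd1 : 4 * max T2 (max T3 T4) ≤ ρ.im := (le_max_left _ _).trans hρim
  have hd2 : max (max T5 T6) 100 ≤ ρ.im := (le_max_right _ _).trans hρim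
  obtain ⟨T, hT⟩ : ∃ T : ℝ, T = ρ.im := ⟨_, rfl⟩
  rw [← hT] at hd1 hd2
  have ha2 : 4 * T2 ≤ T := by
    have := le_max_left T2 (max T3 T4); linarith
  have ha3 : 4 * T3 ≤ T := by
    have := (le_max_left T3 T4).trans (le_max_right T2 (max T3 T4)); linarith
  have ha4 : 4 * T4 ≤ T := by
    have := (le_max_right T3 T4).trans (le_max_right T2 (max T3 T4)); linarith
  have ha5 : T5 ≤ T := ((le_max_left T5 T6).trans (le_max_left _ _)).trans hd2
  have ha6 : T6 ≤ T := ((le_max_right T5 T6).trans (le_max_left _ _)).trans hd2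
  have ha7 : 100 ≤ T := (le_max_right _ _).trans hd2
  have hT2' : T2 ≤ T := by linarith
  obtain ⟨Y0, hY0a, hY0b, hB0⟩ := hbar T ha5
  obtain ⟨Y1, hY1a, hY1b, hB1⟩ := hbar (2 * T + 2) (by linarith)
  have hlog := hT6 T ha6
  obtain ⟨l, hl⟩ : ∃ l : ℝ, l = Real.log T := ⟨_, rfl⟩
  rw [← hl] at hlog
  have hfrac : 0 < 8 / (ε1 * δ) := by positivity
  have hl100 : 100 ≤ l := by linarith
  have hl0 : 0 < l := by linarith
  have hl4 : 8 ≤ l * (ε1 * δ) := by
    have : 8 / (ε1 * δ) ≤ l := by linarith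
    rwa [div_le_iff₀ (by positivity)] at this
  have hup' := hup T hT2'
  rw [← hl] at hup'
  have hεδ : ε1 * δ ≤ 1 / 640 := by
    calc ε1 * δ ≤ 1 / 16 * (1 / 40) := mul_le_mul he1 hδb hδ.le (by norm_num)
      _ = 1 / 640 := by norm_num
  have hεδ0 : 0 < ε1 * δ := by positivity
  -- comparison of logarithms
  have hlogw : ∀ y : ℝ, T / 4 ≤ y → l - 2 ≤ Real.log y := by
    intro y hy
    have h1 : Real.log (T / 4) ≤ Real.log y := Real.log_le_log (by linarith) hy
    rw [Real.log_div (by linarith) (by norm_num), ← hl] at h1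
    have h4 : Real.log 4 ≤ 2 := by
      rw [Real.log_le_iff_le_exp (by norm_num)]
      have h2 : Real.exp 2 = Real.exp 1 * Real.exp 1 := by rw [← Real.exp_add]; norm_num
      rw [h2]
      have := Real.exp_one_gt_d9
      nlinarith
    linarith
  have hlow' : ∀ s : ℂ, T / 4 ≤ s.im → -3 / 2 ≤ s.re → s.re ≤ -δ →
      Real.exp (l * (1 / 2 - s.re - ε1 * δ)) ≤ ‖iteratedDeriv k riemannZeta s‖ := by
    intro s h1 h2 h3
    refine le_trans ?_ (hlow s (by linarith) h2 h3)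
    apply Real.exp_le_exp.2
    have h4 := hlogw s.im h1
    have h5 : 0 ≤ 1 / 2 - s.re - ε1 * δ / 2 := by linarith
    have h6 := mul_le_mul_of_nonneg_right h4 h5
    have h7 : l * (1 / 2 - s.re - ε1 * δ) = (l - 2) * (1 / 2 - s.re - ε1 * δ / 2) +
        2 * (1 / 2 - s.re - ε1 * δ / 2) - l * (ε1 * δ) / 2 := by ring
    linarith
  have hne1 : ∀ s : ℂ, T / 4 ≤ s.im → s ≠ 1 := by
    intro s h1 h
    rw [h, one_im] at h1
    linarith
  refine force (F := iteratedDeriv k riemannZeta) (ρ := ρ) (δ := δ) (c := (1 - ε / 2) * δ)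
    (c' := (1 - ε / 8) * δ) (r0 := ε * δ / 2) (Y0 := Y0) (Y1 := Y1) (Λ := Real.exp (l * (9 / 10)))
    rfl ?_ ?_ hρ0 ?_ ?_ (by positivity) ?_ ?_ ?_ ?_ ?_ ?_ ?_ ?_ ?_
  · intro s hs
    exact (an_it k (hne1 s (by linarith [hs.2.2.1]))).differentiableAt.differentiableWithinAt
  · intro s hs
    obtain ⟨h1, h2, h3, h4⟩ := hs
    rw [← iteratedDeriv_succ]
    rcases lt_or_ge (-δ) s.re with h5 | h5
    · exact hcon s (abs_lt.2 ⟨h5, h2⟩) (by rw [← hT]; linarith) (by rw [← hT]; linarith)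
    · obtain ⟨r1, r2⟩ := hrat s (by linarith) (by linarith) h5
      intro h0
      rw [h0, zero_sub, norm_neg, norm_mul, norm_pow, norm_neg, norm_real] at r2
      have h6 : 98 ≤ Real.log s.im := by linarith [hlogw s.im (by linarith)]
      rw [Real.norm_of_nonneg (by linarith)] at r2
      have h7 : 0 < Real.log s.im ^ (k + 1) * ‖riemannZeta s‖ := by
        have := norm_pos_iff.2 r1
        positivity
      linarith
  · have h1 := abs_lt.1 hρre
    have h2 : (1 - ε) * δ ≤ 1 * δ := mul_le_mul_of_nonneg_right (by linarith) hδ.le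
    linarith [h1.1]
  · have h1 := abs_lt.1 hρre
    linarith [h1.2]
  · exact mul_lt_mul_of_pos_right (by linarith) hδ
  · have : (1 - ε / 8) * δ < 1 * δ := mul_lt_mul_of_pos_right (by linarith) hδ
    linarith
  · rw [← hT]; linarith
  · rw [← hT]; linarith
  · intro x y h1 h2 h3
    exact hB0 x y h1 h2 (by linarith)
  · intro x y h1 h2 h3
    exact hB1 x y h1 h2 (by linarith)
  · intro s h1 h2 h3 h4
    refine le_trans ?_ (hlow' s (by linarith) (by linarith) (by linarith))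
    apply Real.exp_le_exp.2
    exact mul_le_mul_of_nonneg_left (by linarith) hl0.le
  · refine ⟨Real.exp (l * (4 / 5)), Real.exp_pos _, ?_, ?_⟩
    · apply Real.exp_lt_exp.2
      exact mul_lt_mul_of_pos_left (by norm_num) hl0
    · intro x h1 h2
      have := abs_lt.1 hρre
      have h3 : -δ < ρ.re := by
        have h2 : (1 - ε) * δ ≤ 1 * δ := mul_le_mul_of_nonneg_right (by linarith) hδ.le
        linarith [this.1]
      have hre : ((x : ℂ) + ρ.im * I).re = x := by simp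
      have him : ((x : ℂ) + ρ.im * I).im = ρ.im := by simp
      refine (hup' _ ?_ ?_ ?_ ?_).trans_lt ?_
      · rw [hre]; linarith
      · rw [hre]; linarith
      · rw [him]; linarith
      · rw [him]; linarith
      · rw [hre]
        apply Real.exp_lt_exp.2
        exact mul_lt_mul_of_pos_left (by linarith) hl0
  · intro q p hq1 hq2 hq3 hq4 hp1 hp2 hp3
    -- the auxiliary function
    obtain ⟨w, hw⟩ : ∃ w : ℂ → ℂ, w = fun u => ((-δ : ℝ) : ℂ) + (p.im : ℂ) * I + ((8 * δ : ℝ) : ℂ) * u :=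
      ⟨_, rfl⟩
    have hwre : ∀ u, (w u).re = -δ + 8 * δ * u.re := by intro u; simp [hw]
    have hwim : ∀ u, (w u).im = p.im + 8 * δ * u.im := by intro u; simp [hw]
    obtain ⟨g, hg⟩ : ∃ g : ℂ → ℂ, g = fun u => iteratedDeriv k riemannZeta (w u) *
      cexp ((l : ℂ) * (w u - 1 / 2)) := ⟨_, rfl⟩
    have hgn : ∀ u, ‖g u‖ = ‖iteratedDeriv k riemannZeta (w u)‖ *
        Real.exp (l * ((w u).re - 1 / 2)) := by
      intro u
      rw [hg, norm_mul, Complex.norm_exp]
      congr 2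
      simp [sub_re]
    have hwim' : ∀ u ∈ closedBall (0 : ℂ) 2, T / 4 ≤ (w u).im ∧ (w u).im ≤ 4 * T ∧
        -1 / 2 ≤ (w u).re ∧ (w u).re ≤ 16 * δ := by
      intro u hu
      rw [mem_closedBall, dist_zero_right] at hu
      have h1 := abs_le.1 ((abs_re_le_norm u).trans hu)
      have h2 := abs_le.1 ((abs_im_le_norm u).trans hu)
      rw [hwre, hwim]
      have e1 : δ * u.re ≤ δ * 2 := mul_le_mul_of_nonneg_left h1.2 hδ.le
      have e2 : δ * (-2) ≤ δ * u.re := mul_le_mul_of_nonneg_left h1.1 hδ.le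
      have e3 : δ * u.im ≤ δ * 2 := mul_le_mul_of_nonneg_left h2.2 hδ.le
      have e4 : δ * (-2) ≤ δ * u.im := mul_le_mul_of_nonneg_left h2.1 hδ.le
      refine ⟨?_, ?_, ?_, ?_⟩ <;> linarith
    have hA : 0 < ε1 * δ * l := by positivity
    obtain ⟨r, hr1, hr2, hr⟩ := minmod (g := g) (A := ε1 * δ * l) hA (by
      intro u hu
      obtain ⟨h1, -, -, -⟩ := hwim' u hu
      rw [hg]
      have hwa : AnalyticAt ℂ w u := by
        rw [hw]; fun_prop
      have h2 : AnalyticAt ℂ (fun u => iteratedDeriv k riemannZeta (w u)) u :=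
        (an_it k (hne1 _ h1)).fun_comp hwa
      have h3 : AnalyticAt ℂ (fun u => cexp ((l : ℂ) * (w u - 1 / 2))) u := by fun_prop
      exact h2.mul h3) (by
      intro u hu
      obtain ⟨h1, h2, h3, h4⟩ := hwim' u hu
      rw [hgn]
      calc ‖iteratedDeriv k riemannZeta (w u)‖ * Real.exp (l * ((w u).re - 1 / 2)) ≤
          Real.exp (l * (1 / 2 - (w u).re + ε1 * δ)) * Real.exp (l * ((w u).re - 1 / 2)) := by
            gcongr
            exact hup' _ h3 h4 h1 h2
        _ = _ := by rw [← Real.exp_add]; congr 1; ring) (by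
      obtain ⟨h1, h2, h3, h4⟩ := hwim' 0 (by simp)
      rw [hgn]
      have h5 : (w 0).re = -δ := by rw [hwre]; simp
      calc Real.exp (-(ε1 * δ * l)) = Real.exp (l * (1 / 2 - (w 0).re - ε1 * δ)) *
          Real.exp (l * ((w 0).re - 1 / 2)) := by rw [← Real.exp_add]; congr 1; ring
        _ ≤ _ := by
            gcongr
            exact hlow' _ h1 (by linarith) h5.le) (p := (((2 - ε / 2) / 8 : ℝ) : ℂ)) (by
      rw [norm_real, Real.norm_of_nonneg (by linarith)]
      linarith) (ρ := ε / 64) (by positivity) (by linarith)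
    rw [← hKε] at hr
    have hr0 : 0 < r := by linarith
    have hδr : δ * r ≤ δ * (2 * (ε / 64)) := mul_le_mul_of_nonneg_left hr2 hδ.le
    have hδε : 0 < δ * ε := by positivity
    refine ⟨8 * δ * r, by positivity, by linarith, ?_⟩
    intro z hz
    obtain ⟨u, hu⟩ : ∃ u : ℂ, u = (z - ((-δ : ℝ) : ℂ) - (p.im : ℂ) * I) / ((8 * δ : ℝ) : ℂ) := ⟨_, rfl⟩
    have h8δ : ((8 * δ : ℝ) : ℂ) ≠ 0 := by
      rw [Ne, ofReal_eq_zero]; positivity
    have hwu : w u = z := by
      rw [hw, hu]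
      simp only
      rw [mul_div_cancel₀ _ h8δ]
      ring
    have hpz : z - p = z - (((1 - ε / 2) * δ : ℝ) : ℂ) - (p.im : ℂ) * I := by
      rw [← hp1]
      calc z - p = z - ((p.re : ℂ) + (p.im : ℂ) * I) := by rw [re_add_im]
        _ = _ := by ring
    have hup1 : u - (((2 - ε / 2) / 8 : ℝ) : ℂ) = (z - p) / ((8 * δ : ℝ) : ℂ) := by
      rw [eq_div_iff h8δ, sub_mul, hu, div_mul_cancel₀ _ h8δ, hpz]
      push_cast
      ring
    have hnorm : ‖u - (((2 - ε / 2) / 8 : ℝ) : ℂ)‖ = r := by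
      rw [hup1, norm_div, hz, norm_real, Real.norm_of_nonneg (by positivity)]
      field_simp
    have h1 := hr u hnorm
    rw [hgn, hwu] at h1
    have hzre : z.re ≤ (1 - ε / 4) * δ := by
      have h2 := (re_le_norm (z - p))
      rw [hz, sub_re, hp1] at h2
      linarith
    have hFq : ‖iteratedDeriv k riemannZeta q‖ ≤ Real.exp (l * (1 / 2 - q.re + ε1 * δ)) := by
      have hc0 : 0 < (1 - ε / 8) * δ := mul_pos (by linarith) hδ
      apply hup' q
      · linarith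
      · linarith
      · linarith
      · linarith
    refine hFq.trans ?_
    have h3 : Real.exp (-(ε1 * δ * l * Kε)) * Real.exp (l * (1 / 2 - z.re)) ≤
        ‖iteratedDeriv k riemannZeta z‖ := by
      calc _ ≤ (‖iteratedDeriv k riemannZeta z‖ * Real.exp (l * (z.re - 1 / 2))) *
            Real.exp (l * (1 / 2 - z.re)) := by gcongr
        _ = ‖iteratedDeriv k riemannZeta z‖ := by
            rw [mul_assoc, ← Real.exp_add, show l * (z.re - 1 / 2) + l * (1 / 2 - z.re) = 0 by ring,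
              Real.exp_zero, mul_one]
    refine le_trans ?_ h3
    rw [← Real.exp_add]
    apply Real.exp_le_exp.2
    have h4 : 1 / 2 - q.re + ε1 * δ ≤ -(ε1 * δ * Kε) + (1 / 2 - z.re) := by
      have h5 : δ * (ε1 * (1 + Kε)) ≤ δ * (ε / 8) := mul_le_mul_of_nonneg_left heK hδ.le
      linarith
    calc l * (1 / 2 - q.re + ε1 * δ) ≤ l * (-(ε1 * δ * Kε) + (1 / 2 - z.re)) := by gcongr
      _ = _ := by ring

end Q240.QS
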