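import Mathlib

/-!
# Growth of a component of a sublevel set in the absence of critical points
-/

set_option autoImplicit false

namespace Q240.QS

open Complex Filter Topology Metric Set

/-- the points of `Ω` where `‖F‖ < lam` -/
def Low (Ω : Set ℂ) (F : ℂ → ℂ) (lam : ℝ) : Set ℂ := {s | s ∈ Ω ∧ ‖F s‖ < lam}

/-- the component of `ρ` -/
def Cmp (Ω : Set ℂ) (F : ℂ → ℂ) (ρ : ℂ) (lam : ℝ) : Set ℂ := connectedComponentIn (Low Ω F lam) ρ

theorem subset_of_frontier {S V : Set ℂ} (hS : IsPreconnected S) (hV : IsOpen V)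
    (h1 : (S ∩ V).Nonempty) (h2 : ∀ x ∈ S, x ∉ frontier V) : S ⊆ V := by
  refine hS.subset_left_of_subset_union hV (isClosed_closure (s := V)).isOpen_compl ?_ ?_ h1
  · exact disjoint_left.2 fun x hx hx' => hx' (subset_closure hx)
  · intro x hx
    by_cases h : x ∈ V
    · exact Or.inl h
    · right
      intro hc
      apply h2 x hx
      rw [hV.frontier_eq]
      exact ⟨hc, h⟩

variable {Ω K : Set ℂ} {F : ℂ → ℂ} {ρ : ℂ} {lam : ℝ}

theorem low_open (hΩ : IsOpen Ω) (hF : DifferentiableOn ℂ F Ω) (lam : ℝ) : IsOpen (Low Ω F lam) := by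
  have h := hF.continuousOn.norm.isOpen_inter_preimage hΩ (isOpen_Iio (a := lam))
  exact h

theorem cmp_open (hΩ : IsOpen Ω) (hF : DifferentiableOn ℂ F Ω) (lam : ℝ) : IsOpen (Cmp Ω F ρ lam) :=
  (low_open hΩ hF lam).connectedComponentIn

theorem cmp_pre (lam : ℝ) : IsPreconnected (Cmp Ω F ρ lam) := isPreconnected_connectedComponentIn

theorem cmp_sub (lam : ℝ) : Cmp Ω F ρ lam ⊆ Low Ω F lam := connectedComponentIn_subset _ _

theorem cmp_mono {l l' : ℝ} (h : l ≤ l') : Cmp Ω F ρ l ⊆ Cmp Ω F ρ l' :=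
  connectedComponentIn_mono _ fun _ hx => ⟨hx.1, hx.2.trans_le h⟩

theorem mem_cmp (hρ : ρ ∈ Ω) (h0 : F ρ = 0) (hl : 0 < lam) : ρ ∈ Cmp Ω F ρ lam :=
  mem_connectedComponentIn ⟨hρ, by rw [h0, norm_zero]; exact hl⟩

/-- maximality -/
theorem cmp_max {S : Set ℂ} (hS : IsPreconnected S) (h : S ⊆ Low Ω F lam)
    (hne : (S ∩ Cmp Ω F ρ lam).Nonempty) : S ⊆ Cmp Ω F ρ lam := by
  obtain ⟨y, hy1, hy2⟩ := hne
  have h1 := hS.subset_connectedComponentIn hy1 h
  unfold Cmp at hy2 ⊢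
  rw [connectedComponentIn_eq hy2]
  exact h1

/-- a point of the boundary in `Ω` lies on the level curve -/
theorem bdry (hΩ : IsOpen Ω) (hF : DifferentiableOn ℂ F Ω) {p : ℂ} (hp : p ∈ Ω)
    (hc : p ∈ closure (Cmp Ω F ρ lam)) (hn : p ∉ Cmp Ω F ρ lam) : ‖F p‖ = lam := by
  apply le_antisymm
  · have hcont : ContinuousAt (fun z => ‖F z‖) p :=
      ((hF p hp).differentiableAt (hΩ.mem_nhds hp)).continuousAt.norm
    by_contra hlt
    push Not at hlt
    have h1 : ∀ᶠ z in 𝓝 p, lam < ‖F z‖ := hcont.eventually_const_lt hlt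
    obtain ⟨z, hz1, hz2⟩ := mem_closure_iff_nhds.1 hc _ h1
    exact lt_asymm (hz1 : lam < ‖F z‖) ((cmp_sub lam hz2).2)
  · by_contra hlt
    push Not at hlt
    have hpA : p ∈ Low Ω F lam := ⟨hp, hlt⟩
    have ho : IsOpen (connectedComponentIn (Low Ω F lam) p) :=
      (low_open hΩ hF lam).connectedComponentIn
    have hpm : p ∈ connectedComponentIn (Low Ω F lam) p := mem_connectedComponentIn hpA
    obtain ⟨z, hz1, hz2⟩ := mem_closure_iff_nhds.1 hc _ (ho.mem_nhds hpm)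
    exact hn (cmp_max isPreconnected_connectedComponentIn (connectedComponentIn_subset _ _)
      ⟨z, hz1, hz2⟩ hpm)

/-- the component is the union of the smaller ones -/
theorem cmp_union (hΩ : IsOpen Ω) (hF : DifferentiableOn ℂ F Ω) (hρ : ρ ∈ Ω) (h0 : F ρ = 0)
    (hl : 0 < lam) {x : ℂ} (hx : x ∈ Cmp Ω F ρ lam) :
    ∃ l : ℝ, 0 < l ∧ l < lam ∧ x ∈ Cmp Ω F ρ l := by
  have hρm := mem_cmp hρ h0 hl
  have hpc : IsPathConnected (Cmp Ω F ρ lam) :=
    ((cmp_open hΩ hF lam).isConnected_iff_isPathConnected).1 ⟨⟨ρ, hρm⟩, cmp_pre lam⟩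
  have hj := hpc.joinedIn ρ hρm x hx
  obtain ⟨γ, hγ⟩ : ∃ γ : Path ρ x, ∀ t, γ t ∈ Cmp Ω F ρ lam := ⟨hj.somePath, hj.somePath_mem⟩
  have hcont : Continuous fun t => ‖F (γ t)‖ := by
    apply Continuous.norm
    rw [continuous_iff_continuousAt]
    intro t
    have h1 := (cmp_sub lam (hγ t)).1
    exact ContinuousAt.comp (g := F)
      ((hF _ h1).differentiableAt (hΩ.mem_nhds h1)).continuousAt γ.continuous.continuousAt
  obtain ⟨t0, -, ht0⟩ := isCompact_univ.exists_isMaxOn univ_nonempty hcont.continuousOn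
  have hlt : ‖F (γ t0)‖ < lam := (cmp_sub lam (hγ t0)).2
  obtain ⟨l, hl1, hl2⟩ := exists_between (max_lt hl hlt)
  refine ⟨l, (le_max_left _ _).trans_lt hl1, hl2, ?_⟩
  have hS : IsPreconnected (range γ) := isPreconnected_range γ.continuous
  have hsub : range γ ⊆ Low Ω F l := by
    rintro _ ⟨t, rfl⟩
    exact ⟨(cmp_sub lam (hγ t)).1, (ht0 (mem_univ t)).trans_lt ((le_max_right _ _).trans_lt hl1)⟩
  have h2 := hS.subset_connectedComponentIn ⟨0, γ.source⟩ hsub
  exact h2 ⟨1, γ.target⟩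

/-- near a regular boundary point -/
theorem local_side (hΩ : IsOpen Ω) (hF : DifferentiableOn ℂ F Ω) (hl : 0 < lam) {p : ℂ} (hp : p ∈ Ω)
    (hp' : deriv F p ≠ 0) (hc : p ∈ closure (Cmp Ω F ρ lam)) (hn : p ∉ Cmp Ω F ρ lam) :
    ∀ᶠ x in 𝓝 p, x ∈ closure (Cmp Ω F ρ lam) ∨ (x ∈ Ω ∧ lam < ‖F x‖) := by
  have hFp := bdry hΩ hF hp hc hn
  have han : AnalyticAt ℂ F p := hF.analyticAt (hΩ.mem_nhds hp)
  have hst : HasStrictDerivAt F (deriv F p) p := han.hasStrictDerivAt
  obtain ⟨e, he⟩ : ∃ e, e = HasStrictFDerivAt.toOpenPartialHomeomorph F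
    (hst.hasStrictFDerivAt_equiv hp') := ⟨_, rfl⟩
  have hcoe : (e : ℂ → ℂ) = F := by
    rw [he]; exact HasStrictFDerivAt.toOpenPartialHomeomorph_coe _
  have hsrc : p ∈ e.source := by
    rw [he]; exact HasStrictFDerivAt.mem_toOpenPartialHomeomorph_source _
  have htgt : F p ∈ e.target := by
    have := e.map_source hsrc
    rwa [hcoe] at this
  have hsymm : e.symm (F p) = p := by
    have := e.left_inv hsrc
    rwa [hcoe] at this
  -- a ball around `F p`
  have hca : ContinuousAt e.symm (F p) := e.continuousAt_symm htgt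
  have hev1 : ∀ᶠ w in 𝓝 (F p), w ∈ e.target := e.open_target.mem_nhds htgt
  have hev2 : ∀ᶠ w in 𝓝 (F p), e.symm w ∈ Ω := by
    apply hca
    rw [hsymm]
    exact hΩ.mem_nhds hp
  have hev : ∀ᶠ w in 𝓝 (F p), w ∈ e.target ∧ e.symm w ∈ Ω := hev1.and hev2
  obtain ⟨r, hr, hball⟩ := Metric.eventually_nhds_iff_ball.1 hev
  set B : Set ℂ := ball (F p) r with hB
  set N : Set ℂ := e.symm '' B with hN
  have hBt : B ⊆ e.target := fun w hw => (hball w hw).1
  have hNo : IsOpen N := e.symm.isOpen_image_of_subset_source isOpen_ball (by simpa using hBt)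
  have hpN : p ∈ N := ⟨F p, mem_ball_self hr, hsymm⟩
  have hcontB : ContinuousOn e.symm B := e.continuousOn_symm.mono hBt
  set T : Set ℂ := B ∩ ball 0 lam with hT
  have hTpre : IsPreconnected T := ((convex_ball _ _).inter (convex_ball _ _)).isPreconnected
  set S : Set ℂ := e.symm '' T with hS
  have hSpre : IsPreconnected S := hTpre.image _ (hcontB.mono inter_subset_left)
  have hFs : ∀ w ∈ B, F (e.symm w) = w := by
    intro w hw
    have := e.right_inv (hBt hw)
    rwa [hcoe] at this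
  have hSA : S ⊆ Low Ω F lam := by
    rintro _ ⟨w, hw, rfl⟩
    refine ⟨(hball w hw.1).2, ?_⟩
    rw [hFs w hw.1]
    simpa using hw.2
  have hSU : S ⊆ Cmp Ω F ρ lam := by
    apply cmp_max hSpre hSA
    obtain ⟨y, hy1, hy2⟩ := mem_closure_iff_nhds.1 hc _ (hNo.mem_nhds hpN)
    refine ⟨y, ?_, hy2⟩
    obtain ⟨w, hw, rfl⟩ := hy1
    have := (cmp_sub lam hy2).2
    rw [hFs w hw] at this
    exact ⟨w, ⟨hw, by simpa using this⟩, rfl⟩
  filter_upwards [hNo.mem_nhds hpN] with x hx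
  obtain ⟨w, hw, rfl⟩ := hx
  by_cases hle : ‖w‖ ≤ lam
  · left
    have hwc : w ∈ closure T := by
      rw [hT, Metric.mem_closure_iff]
      intro ε hε
      have hwr : dist w (F p) < r := hw
      obtain ⟨t, ht0, ht1, ht2⟩ : ∃ t : ℝ, 0 < t ∧ t < 1 ∧ t * ‖w‖ < min ε (r - dist w (F p)) := by
        have hpos : 0 < min ε (r - dist w (F p)) := lt_min hε (by linarith)
        refine ⟨min (1 / 2) (min ε (r - dist w (F p)) / (2 * (‖w‖ + 1))), ?_, ?_, ?_⟩
        · have := norm_nonneg w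
          positivity
        · exact (min_le_left _ _).trans_lt (by norm_num)
        · have hw0 := norm_nonneg w
          calc min (1 / 2) (min ε (r - dist w (F p)) / (2 * (‖w‖ + 1))) * ‖w‖
              ≤ min ε (r - dist w (F p)) / (2 * (‖w‖ + 1)) * ‖w‖ :=
                mul_le_mul_of_nonneg_right (min_le_right _ _) hw0
            _ < min ε (r - dist w (F p)) := by
                rw [div_mul_eq_mul_div, div_lt_iff₀ (by positivity)]
                nlinarith
      refine ⟨((1 - t : ℝ) : ℂ) * w, ⟨?_, ?_⟩, ?_⟩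
      · rw [hB, mem_ball]
        calc dist (((1 - t : ℝ) : ℂ) * w) (F p) ≤ dist (((1 - t : ℝ) : ℂ) * w) w + dist w (F p) :=
              dist_triangle _ _ _
          _ < r := by
            rw [dist_eq_norm]
            have : ((1 - t : ℝ) : ℂ) * w - w = -(t * w) := by push_cast; ring
            rw [this, norm_neg, norm_mul, norm_real, Real.norm_of_nonneg ht0.le]
            have := ht2.trans_le (min_le_right _ _)
            linarith
      · rw [mem_ball_zero_iff, norm_mul, norm_real, Real.norm_of_nonneg (by linarith)]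
        rcases (norm_nonneg w).eq_or_lt with h | h
        · rw [← h, mul_zero]; exact hl
        · nlinarith
      · rw [dist_eq_norm]
        have : w - ((1 - t : ℝ) : ℂ) * w = t * w := by push_cast; ring
        rw [this, norm_mul, norm_real, Real.norm_of_nonneg ht0.le]
        exact ht2.trans_le (min_le_left _ _)
    have h1 : ContinuousWithinAt e.symm T w :=
      (e.continuousAt_symm (hBt hw)).continuousWithinAt
    exact closure_mono hSU (h1.mem_closure_image hwc)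
  · right
    refine ⟨(hball w hw).2, ?_⟩
    rw [hFs w hw]
    exact not_le.1 hle

/-- a relatively compact component stays relatively compact for slightly larger levels -/
theorem stable (hΩ : IsOpen Ω) (hF : DifferentiableOn ℂ F Ω) (hF' : ∀ s ∈ Ω, deriv F s ≠ 0)
    (hK : IsCompact K) (hKΩ : K ⊆ Ω) (hρ : ρ ∈ Ω) (h0 : F ρ = 0) (hl : 0 < lam)
    (hC : Cmp Ω F ρ lam ⊆ K) : ∃ l1 : ℝ, lam < l1 ∧ ∀ l : ℝ, lam < l → l < l1 →
      closure (Cmp Ω F ρ l) ⊆ Ω ∧ Bornology.IsBounded (Cmp Ω F ρ l) := by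
  set U := Cmp Ω F ρ lam with hU
  have hUo : IsOpen U := cmp_open hΩ hF lam
  have hρU : ρ ∈ U := mem_cmp hρ h0 hl
  have hUK : closure U ⊆ K := closure_minimal hC hK.isClosed
  have hUc : IsCompact (closure U) := hK.of_isClosed_subset isClosed_closure hUK
  set W : Set ℂ := {x | x ∈ closure U ∨ (x ∈ Ω ∧ lam < ‖F x‖)} with hW
  have hWn : closure U ⊆ interior W := by
    intro p hp
    rw [mem_interior_iff_mem_nhds]
    by_cases hpU : p ∈ U
    · exact mem_of_superset (hUo.mem_nhds hpU) fun x hx => Or.inl (subset_closure hx)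
    · exact local_side hΩ hF hl (hKΩ (hUK hp)) (hF' p (hKΩ (hUK hp))) hp hpU
  obtain ⟨δ, hδ, hδW⟩ := hUc.exists_cthickening_subset_open isOpen_interior hWn
  have hδW' : cthickening δ (closure U) ⊆ W := hδW.trans interior_subset
  have hWΩ : W ⊆ Ω := by
    rintro x (hx | hx)
    · exact hKΩ (hUK hx)
    · exact hx.1
  set V : Set ℂ := thickening δ (closure U) with hV
  have hVo : IsOpen V := isOpen_thickening
  have hUV : closure U ⊆ V := self_subset_thickening hδ _
  have hVc : closure V ⊆ cthickening δ (closure U) := closure_thickening_subset_cthickening _ _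
  have hcc : IsCompact (cthickening δ (closure U)) := hUc.cthickening
  have hfr : ∀ x ∈ frontier V, x ∈ Ω ∧ lam < ‖F x‖ := by
    intro x hx
    rw [hVo.frontier_eq] at hx
    rcases hδW' (hVc hx.1) with h | h
    · exact absurd (hUV h) hx.2
    · exact h
  have hfrc : IsCompact (frontier V) :=
    hcc.of_isClosed_subset isClosed_frontier (frontier_subset_closure.trans hVc)
  obtain ⟨l1, hl1, hmin⟩ : ∃ l1 : ℝ, lam < l1 ∧ ∀ x ∈ frontier V, l1 ≤ ‖F x‖ := by
    rcases (frontier V).eq_empty_or_nonempty with h | h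
    · exact ⟨lam + 1, by linarith, by simp [h]⟩
    · obtain ⟨x0, hx0, hm⟩ := hfrc.exists_isMinOn h
        (hF.continuousOn.norm.mono fun x hx => (hfr x hx).1)
      exact ⟨‖F x0‖, (hfr x0 hx0).2, fun x hx => hm hx⟩
  refine ⟨l1, hl1, fun l h1 h2 => ?_⟩
  have hsub : Cmp Ω F ρ l ⊆ V := by
    apply subset_of_frontier (cmp_pre l) hVo
    · exact ⟨ρ, mem_cmp hρ h0 (hl.trans h1), hUV (subset_closure hρU)⟩
    · intro x hx hx'
      have h3 := (cmp_sub l hx).2
      have h4 := hmin x hx'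
      linarith
  exact ⟨(closure_mono hsub).trans (hVc.trans (hδW'.trans hWΩ)),
    (hcc.isBounded.subset hVc).subset (hsub.trans subset_closure)⟩

/-- the component stays in `K` for all levels below `Λ` -/
theorem cmp_main (hΩ : IsOpen Ω) (hF : DifferentiableOn ℂ F Ω) (hF' : ∀ s ∈ Ω, deriv F s ≠ 0)
    (hK : IsCompact K) (hKΩ : K ⊆ Ω) (hρ : ρ ∈ Ω) (h0 : F ρ = 0) {Λ : ℝ}
    (hNE : ∀ l : ℝ, 0 < l → l < Λ → closure (Cmp Ω F ρ l) ⊆ Ω → Bornology.IsBounded (Cmp Ω F ρ l) →
      Cmp Ω F ρ l ⊆ K) :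
    ∀ l : ℝ, 0 < l → l < Λ → Cmp Ω F ρ l ⊆ K := by
  by_contra hcon
  push Not at hcon
  obtain ⟨l0, hl0, hl0Λ, hbad⟩ := hcon
  set S : Set ℝ := {l | 0 < l ∧ Cmp Ω F ρ l ⊆ K} with hS
  have hSb : ∀ l ∈ S, l ≤ l0 := by
    intro l hlS
    by_contra h
    push Not at h
    exact hbad ((cmp_mono h.le).trans hlS.2)
  have hbdd : BddAbove S := ⟨l0, hSb⟩
  -- small levels
  have hne : S.Nonempty := by
    have hd : DifferentiableAt ℂ F ρ := (hF ρ hρ).differentiableAt (hΩ.mem_nhds hρ)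
    have h1 : ∀ᶠ z in 𝓝[≠] ρ, F z ≠ F ρ := hd.hasDerivAt.eventually_ne (hF' ρ hρ)
    rw [eventually_nhdsWithin_iff] at h1
    have h2' : ∀ᶠ z in 𝓝 ρ, z ∈ Ω := hΩ.mem_nhds hρ
    have h2 : ∀ᶠ z in 𝓝 ρ, z ∈ Ω ∧ (z ∈ ({ρ}ᶜ : Set ℂ) → F z ≠ F ρ) := h2'.and h1
    obtain ⟨r, hr, hr'⟩ := Metric.eventually_nhds_iff_ball.1 h2
    have hcb : closedBall ρ (r / 2) ⊆ ball ρ r := closedBall_subset_ball (by linarith)
    have hsp : IsCompact (sphere ρ (r / 2)) := isCompact_sphere _ _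
    have hspn : (sphere ρ (r / 2)).Nonempty := NormedSpace.sphere_nonempty.2 (by linarith)
    obtain ⟨x0, hx0, hm⟩ := hsp.exists_isMinOn hspn (hF.continuousOn.norm.mono fun x hx =>
      (hr' x (hcb (sphere_subset_closedBall hx))).1)
    have hx0pos : 0 < ‖F x0‖ := by
      rw [norm_pos_iff]
      have h3 := (hr' x0 (hcb (sphere_subset_closedBall hx0))).2 (by
        intro h
        rw [mem_singleton_iff] at h
        rw [h, mem_sphere, dist_self] at hx0
        linarith)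
      rwa [h0] at h3
    obtain ⟨l, hla, hlb⟩ := exists_between (lt_min hx0pos (hl0.trans hl0Λ))
    refine ⟨l, hla, ?_⟩
    have hsub : Cmp Ω F ρ l ⊆ ball ρ (r / 2) := by
      apply subset_of_frontier (cmp_pre l) isOpen_ball
      · exact ⟨ρ, mem_cmp hρ h0 hla, mem_ball_self (by linarith)⟩
      · intro x hx hx'
        rw [frontier_ball ρ (by linarith : r / 2 ≠ 0)] at hx'
        have h3 := (cmp_sub l hx).2
        have h4 : ‖F x0‖ ≤ ‖F x‖ := hm hx'
        have h5 := hlb.trans_le (min_le_left _ _)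
        linarith
    refine hNE l hla (hlb.trans_le (min_le_right _ _)) ?_ (isBounded_ball.subset hsub)
    refine (closure_mono hsub).trans (closure_ball_subset_closedBall.trans ?_)
    exact fun x hx => (hr' x (hcb hx)).1
  set L : ℝ := sSup S with hL
  have hL0 : 0 < L := by
    obtain ⟨l, hlS⟩ := hne
    exact hlS.1.trans_le (le_csSup hbdd hlS)
  have hLl0 : L ≤ l0 := csSup_le hne hSb
  have hLK : Cmp Ω F ρ L ⊆ K := by
    intro x hx
    obtain ⟨l, hla, hlb, hxl⟩ := cmp_union hΩ hF hρ h0 hL0 hx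
    obtain ⟨l', hl', hll'⟩ := exists_lt_of_lt_csSup hne hlb
    exact hl'.2 (cmp_mono hll'.le hxl)
  obtain ⟨l1, hl1, hst⟩ := stable hΩ hF hF' hK hKΩ hρ h0 hL0 hLK
  obtain ⟨l, hla, hlb⟩ := exists_between (lt_min hl1 (hLl0.trans_lt hl0Λ))
  have h5 := hst l hla (hlb.trans_le (min_le_left _ _))
  have h6 := hNE l (hL0.trans hla) (hlb.trans_le (min_le_right _ _)) h5.1 h5.2
  have h7 : l ≤ L := le_csSup hbdd ⟨hL0.trans hla, h6⟩
  linarith

end Q240.QS
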